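import Mathlib

set_option autoImplicit false
set_option linter.unusedSectionVars false

namespace Pool.Agent.MPf836ec

variable {V : Type} [Fintype V] [DecidableEq V]

/-- double counting edges -/
theorem dc {G : SimpleGraph V} [DecidableRel G.Adj] (hreg : G.IsRegularOfDegree 3)
    (R L : Finset V) (h : ∀ a ∈ R, ∀ l, G.Adj a l → l ∈ L) :
    3 * R.card = ∑ l ∈ L, (R.filter (fun a => G.Adj l a)).card := by
  have h1 := Finset.sum_card_bipartiteAbove_eq_sum_card_bipartiteBelow (s := R) (t := L)
    (r := G.Adj)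
  have h2 : ∑ a ∈ R, (L.bipartiteAbove G.Adj a).card = ∑ a ∈ R, 3 := by
    apply Finset.sum_congr rfl
    intro a ha
    have e : L.bipartiteAbove G.Adj a = G.neighborFinset a := by
      ext l
      simp only [Finset.mem_bipartiteAbove, SimpleGraph.mem_neighborFinset]
      exact ⟨fun h => h.2, fun h' => ⟨h a ha l h', h'⟩⟩
    rw [e, SimpleGraph.card_neighborFinset_eq_degree]
    exact hreg a
  rw [h2, Finset.sum_const, smul_eq_mul, mul_comm] at h1
  rw [h1]
  apply Finset.sum_congr rfl
  intro l _
  congr 1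
  ext a
  simp only [Finset.mem_bipartiteBelow, Finset.mem_filter, G.adj_comm]

theorem filter_le_three {G : SimpleGraph V} [DecidableRel G.Adj] (hreg : G.IsRegularOfDegree 3)
    (R : Finset V) (l : V) : (R.filter (fun a => G.Adj l a)).card ≤ 3 := by
  have : R.filter (fun a => G.Adj l a) ⊆ G.neighborFinset l := by
    intro a ha
    rw [SimpleGraph.mem_neighborFinset]
    exact (Finset.mem_filter.1 ha).2
  have h := Finset.card_le_card this
  rw [SimpleGraph.card_neighborFinset_eq_degree, hreg l] at h
  exact h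

theorem dc_le {G : SimpleGraph V} [DecidableRel G.Adj] (hreg : G.IsRegularOfDegree 3)
    (R L : Finset V) (h : ∀ a ∈ R, ∀ l, G.Adj a l → l ∈ L) : R.card ≤ L.card := by
  have h1 := dc hreg R L h
  have h2 : ∑ l ∈ L, (R.filter (fun a => G.Adj l a)).card ≤ ∑ l ∈ L, 3 :=
    Finset.sum_le_sum (fun l _ => filter_le_three hreg R l)
  rw [Finset.sum_const, smul_eq_mul] at h2
  omega

theorem dc_lt {G : SimpleGraph V} [DecidableRel G.Adj] (hreg : G.IsRegularOfDegree 3)
    (R L : Finset V) (h : ∀ a ∈ R, ∀ l, G.Adj a l → l ∈ L)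
    (h' : ∃ l ∈ L, ∃ w, G.Adj l w ∧ w ∉ R) : R.card < L.card := by
  have h1 := dc hreg R L h
  have h2 : ∑ l ∈ L, (R.filter (fun a => G.Adj l a)).card < ∑ l ∈ L, 3 := by
    obtain ⟨l, hl, w, hlw, hw⟩ := h'
    apply Finset.sum_lt_sum (fun l _ => filter_le_three hreg R l)
    refine ⟨l, hl, ?_⟩
    have : R.filter (fun a => G.Adj l a) ⊂ G.neighborFinset l := by
      rw [Finset.ssubset_iff_of_subset]
      · exact ⟨w, by rw [SimpleGraph.mem_neighborFinset]; exact hlw, by
          simp only [Finset.mem_filter, not_and]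
          exact fun h => absurd h hw⟩
      · intro a ha
        rw [SimpleGraph.mem_neighborFinset]
        exact (Finset.mem_filter.1 ha).2
    have h := Finset.card_lt_card this
    rw [SimpleGraph.card_neighborFinset_eq_degree, hreg l] at h
    exact h
  rw [Finset.sum_const, smul_eq_mul] at h2
  omega

/-- vertices all of whose neighbours are in `S` -/
def Full (G : SimpleGraph V) [DecidableRel G.Adj] (S : Finset V) : Finset V :=
  Finset.univ.filter (fun v => G.neighborFinset v ⊆ S)

/-- good sets -/
def Good (G : SimpleGraph V) [DecidableRel G.Adj] (S : Finset V) : Prop :=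
  (∀ v, ∃ u ∈ S, G.Adj v u) ∧ (∀ v ∈ S, ∃ u, G.Adj v u ∧ u ∉ S) ∧ (Full G S).card ≤ 3

theorem even_card {G : SimpleGraph V} [DecidableRel G.Adj] (hreg : G.IsRegularOfDegree 3) :
    Even (Fintype.card V) := by
  have h := G.sum_degrees_eq_twice_card_edges
  have h2 : ∑ v : V, G.degree v = Fintype.card V * 3 := by
    rw [Finset.sum_congr rfl (fun v _ => hreg v)]
    simp
  rw [h2] at h
  rw [Nat.even_iff]
  omega

theorem of_good {G : SimpleGraph V} [DecidableRel G.Adj] (hreg : G.IsRegularOfDegree 3)
    (S : Finset V) (hS : Good G S) :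
    ∃ S : Finset V,
        (∀ v : V, ∃ u ∈ S, G.Adj v u) ∧
        2 * S.card ≤ Fintype.card V ∧
        ∃ D : Finset V, Disjoint D S ∧ ∀ v : V, v ∈ D ∨ ∃ u ∈ D, G.Adj v u := by
  classical
  obtain ⟨h1, h2, h3⟩ := hS
  -- choose a minimal subset
  have hne : ((S.powerset).filter (fun T => ∀ v, ∃ u ∈ T, G.Adj v u)).Nonempty :=
    ⟨S, by simp only [Finset.mem_filter, Finset.mem_powerset]; exact ⟨Finset.Subset.refl _, h1⟩⟩
  obtain ⟨T, hT, hTmin⟩ := Finset.exists_min_image _ (fun T : Finset V => T.card) hne
  simp only [Finset.mem_filter, Finset.mem_powerset] at hT hTmin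
  obtain ⟨hTS, hT1⟩ := hT
  refine ⟨T, hT1, ?_, Tᶜ, disjoint_compl_left, ?_⟩
  · -- private neighbours
    have hpriv : ∀ u ∈ T, ∃ v, T.filter (fun a => G.Adj v a) = {u} := by
      intro u hu
      by_contra hcon
      push Not at hcon
      have := hTmin (T.erase u) ⟨(Finset.erase_subset _ _).trans hTS, by
        intro v
        obtain ⟨w, hw, hvw⟩ := hT1 v
        by_cases hwu : w = u
        · subst hwu
          have hne := hcon v
          by_contra hno
          push Not at hno
          apply hne
          ext a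
          simp only [Finset.mem_filter, Finset.mem_singleton]
          constructor
          · rintro ⟨ha, hva⟩
            by_contra haw
            exact hno a (Finset.mem_erase.2 ⟨haw, ha⟩) hva
          · rintro rfl
            exact ⟨hw, hvw⟩
        · exact ⟨w, Finset.mem_erase.2 ⟨hwu, hw⟩, hvw⟩⟩
      rw [Finset.card_erase_of_mem hu] at this
      have hpos := Finset.card_pos.2 ⟨u, hu⟩
      omega
    choose! f hf using hpriv
    set n1 := Finset.univ.filter (fun v => (T.filter (fun a => G.Adj v a)).card = 1) with hn1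
    have hcard1 : T.card ≤ n1.card := by
      apply Finset.card_le_card_of_injOn f
      · intro u hu
        simp only [hn1, Finset.coe_filter, Finset.mem_univ, true_and, Set.mem_ofPred_eq]
        rw [hf u hu]; simp
      · intro u hu w hw huw
        have e1 := hf u hu
        have e2 := hf w hw
        rw [huw, e2] at e1
        exact (Finset.singleton_injective e1).symm
    have hsum : 3 * T.card = ∑ l : V, (T.filter (fun a => G.Adj l a)).card :=
      dc hreg T Finset.univ (fun a _ l _ => Finset.mem_univ _)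
    have hbound : ∑ l : V, ((T.filter (fun a => G.Adj l a)).card + (if l ∈ n1 then 1 else 0)) ≤
        ∑ l : V, (2 + (if l ∈ Full G T then 1 else 0)) := by
      apply Finset.sum_le_sum
      intro l _
      have hle := filter_le_three hreg T l
      by_cases hl1 : l ∈ n1
      · rw [if_pos hl1]
        have := (Finset.mem_filter.1 hl1).2
        omega
      · rw [if_neg hl1]
        by_cases hl3 : l ∈ Full G T
        · rw [if_pos hl3]; omega
        · rw [if_neg hl3]
          by_contra hgt
          have h3' : (T.filter (fun a => G.Adj l a)).card = 3 := by omega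
          apply hl3
          unfold Full
          rw [Finset.mem_filter]
          refine ⟨Finset.mem_univ _, ?_⟩
          have hsub : T.filter (fun a => G.Adj l a) ⊆ G.neighborFinset l := by
            intro a ha
            rw [SimpleGraph.mem_neighborFinset]
            exact (Finset.mem_filter.1 ha).2
          have heq := Finset.eq_of_subset_of_card_le hsub (by
            rw [SimpleGraph.card_neighborFinset_eq_degree, hreg l, h3'])
          rw [← heq]
          exact Finset.filter_subset _ _
    rw [Finset.sum_add_distrib, Finset.sum_add_distrib, ← hsum] at hbound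
    simp only [Finset.sum_ite_mem, Finset.univ_inter, Finset.sum_const, smul_eq_mul, mul_one,
      Finset.card_univ] at hbound
    have hfull : (Full G T).card ≤ 3 := by
      refine le_trans (Finset.card_le_card ?_) h3
      intro v hv
      unfold Full at hv ⊢
      rw [Finset.mem_filter] at hv ⊢
      exact ⟨hv.1, hv.2.trans hTS⟩
    obtain ⟨k, hk⟩ := even_card hreg
    omega
  · intro v
    by_cases hv : v ∈ T
    · right
      obtain ⟨u, hvu, hu⟩ := h2 v (hTS hv)
      exact ⟨u, Finset.mem_compl.2 (fun h => hu (hTS h)), hvu⟩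
    · left; exact Finset.mem_compl.2 hv

/-- A zero weighted sum which is not identically zero has both signs. -/
theorem both_signs {ι : Type} (s : Finset ι) (a y : ι → ℝ) (ha : ∀ i ∈ s, 0 < a i)
    (h0 : ∑ i ∈ s, a i * y i = 0) (hne : ∃ i ∈ s, y i ≠ 0) :
    (∃ i ∈ s, 0 < y i) ∧ (∃ i ∈ s, y i < 0) := by
  constructor
  · by_contra hcon
    push Not at hcon
    have h1 : ∀ i ∈ s, a i * y i = 0 := by
      apply (Finset.sum_eq_zero_iff_of_nonpos _).1 h0
      intro i hi
      exact mul_nonpos_of_nonneg_of_nonpos (ha i hi).le (hcon i hi)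
    obtain ⟨i, hi, hyi⟩ := hne
    rcases mul_eq_zero.1 (h1 i hi) with h | h
    · exact absurd h (ha i hi).ne'
    · exact hyi h
  · by_contra hcon
    push Not at hcon
    have h1 : ∀ i ∈ s, a i * y i = 0 := by
      apply (Finset.sum_eq_zero_iff_of_nonneg _).1 h0
      intro i hi
      exact mul_nonneg (ha i hi).le (hcon i hi)
    obtain ⟨i, hi, hyi⟩ := hne
    rcases mul_eq_zero.1 (h1 i hi) with h | h
    · exact absurd h (ha i hi).ne'
    · exact hyi h

/-- The extension lemma: colourings of sets `Z` not containing closed sets. -/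
theorem extension {G : SimpleGraph V} [DecidableRel G.Adj] (hreg : G.IsRegularOfDegree 3) :
    ∀ (n : ℕ) (Z : Finset V), Z.card = n →
      (∀ Q : Finset V, Q ⊆ Z → Q.Nonempty →
        ∃ u ∈ Q, ∃ l, G.Adj u l ∧ ∃ w, G.Adj l w ∧ w ∉ Q) →
      ∃ c : V → Bool, ∀ l, (∀ w, G.Adj l w → w ∈ Z) →
        (∃ w, G.Adj l w ∧ c w = true) ∧ (∃ w, G.Adj l w ∧ c w = false) := by
  intro n
  induction n using Nat.strong_induction_on with
  | _ n ih =>
    intro Z hZn hZ
    by_cases hZe : Z.Nonempty
    · set L : Finset V := Finset.univ.filter (fun l => ∀ w, G.Adj l w → w ∈ Z) with hL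
      have hlt : L.card < Z.card := by
        apply dc_lt hreg L Z
        · intro a ha l hal
          exact (Finset.mem_filter.1 ha).2 l hal
        · obtain ⟨u, hu, l, hul, w, hlw, hw⟩ := hZ Z (Finset.Subset.refl _) hZe
          refine ⟨u, hu, l, hul, ?_⟩
          intro hlL
          exact hw ((Finset.mem_filter.1 hlL).2 w hlw)
      -- a nonzero solution
      obtain ⟨y, hy0, hysupp, hyL⟩ : ∃ y : V → ℝ, (∃ v ∈ Z, y v ≠ 0) ∧ (∀ v, v ∉ Z → y v = 0) ∧
          ∀ l ∈ L, ∑ w ∈ G.neighborFinset l, 1 * y w = 0 := by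
        let M : Matrix L Z ℝ := Matrix.of (fun l z => if G.Adj l.1 z.1 then 1 else 0)
        have hker : LinearMap.ker (Matrix.mulVecLin M) ≠ ⊥ := by
          apply LinearMap.ker_ne_bot_of_finrank_lt
          simp only [Module.finrank_fintype_fun_eq_card, Fintype.card_coe]
          exact hlt
        obtain ⟨x, hx, hx0⟩ := (Submodule.ne_bot_iff _).1 hker
        refine ⟨fun v => if h : v ∈ Z then x ⟨v, h⟩ else 0, ?_, ?_, ?_⟩
        · obtain ⟨z, hz⟩ : ∃ z, x z ≠ 0 := by
            by_contra hcon
            push Not at hcon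
            exact hx0 (funext hcon)
          exact ⟨z.1, z.2, by simpa using hz⟩
        · intro v hv
          simp [hv]
        · intro l hl
          rw [LinearMap.mem_ker] at hx
          rw [Matrix.mulVecLin_apply] at hx
          have h1 : ∑ z : Z, (if G.Adj l z.1 then (1 : ℝ) else 0) * x z = 0 :=
            congrFun hx ⟨l, hl⟩
          have h2 : ∑ z : Z, (if G.Adj l z.1 then (1 : ℝ) else 0) * x z =
              ∑ z : Z, (if G.Adj l z.1 then (if h : z.1 ∈ Z then x ⟨z.1, h⟩ else 0) else 0) := by
            apply Finset.sum_congr rfl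
            intro z _
            simp [z.2]
          rw [h2] at h1
          have h3 := Finset.sum_coe_sort Z
            (fun z => (if G.Adj l z then (if h : z ∈ Z then x ⟨z, h⟩ else 0) else (0 : ℝ)))
          rw [h3, ← Finset.sum_filter] at h1
          have h4 : Z.filter (fun z => G.Adj l z) = G.neighborFinset l := by
            ext z
            simp only [Finset.mem_filter, SimpleGraph.mem_neighborFinset]
            exact ⟨fun h => h.2, fun h => ⟨(Finset.mem_filter.1 hl).2 z h, h⟩⟩
          rw [h4] at h1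
          simpa using h1
      set Z' := Z.filter (fun v => y v = 0) with hZ'
      have hZ'lt : Z'.card < n := by
        rw [← hZn]
        apply Finset.card_lt_card
        obtain ⟨v, hv, hyv⟩ := hy0
        rw [Finset.ssubset_iff_of_subset (Finset.filter_subset _ _)]
        exact ⟨v, hv, by simp [hyv]⟩
      obtain ⟨c, hc⟩ := ih Z'.card hZ'lt Z' rfl (fun Q hQ hQn =>
        hZ Q (hQ.trans (Finset.filter_subset _ _)) hQn)
      refine ⟨fun v => if 0 < y v then true else if y v < 0 then false else c v, ?_⟩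
      intro l hl
      have hlL : l ∈ L := by simp only [hL, Finset.mem_filter, Finset.mem_univ, true_and]; exact hl
      by_cases hall : ∀ w, G.Adj l w → y w = 0
      · obtain ⟨⟨w1, h1, h1'⟩, ⟨w2, h2, h2'⟩⟩ := hc l (fun w hw => by
          simp only [hZ', Finset.mem_filter]; exact ⟨hl w hw, hall w hw⟩)
        refine ⟨⟨w1, h1, ?_⟩, ⟨w2, h2, ?_⟩⟩
        · simp [hall w1 h1, h1']
        · simp [hall w2 h2, h2']
      · push Not at hall
        obtain ⟨w, hw, hyw⟩ := hall
        obtain ⟨⟨w1, h1, h1'⟩, ⟨w2, h2, h2'⟩⟩ := both_signs (G.neighborFinset l) (fun _ => 1) y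
          (fun _ _ => one_pos) (hyL l hlL) ⟨w, (G.mem_neighborFinset l w).2 hw, hyw⟩
        refine ⟨⟨w1, (G.mem_neighborFinset l w1).1 h1, ?_⟩,
          ⟨w2, (G.mem_neighborFinset l w2).1 h2, ?_⟩⟩
        · simp [h1']
        · simp [h2', not_lt.2 h2'.le]
    · refine ⟨fun _ => true, ?_⟩
      intro l hl
      exfalso
      apply hZe
      have : 0 < (G.neighborFinset l).card := by
        rw [SimpleGraph.card_neighborFinset_eq_degree, hreg l]; norm_num
      obtain ⟨w, hw⟩ := Finset.card_pos.1 this
      exact ⟨w, hl w ((G.mem_neighborFinset l w).1 hw)⟩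

/-- The main colouring construction. -/
theorem good_of_vector {G : SimpleGraph V} [DecidableRel G.Adj]
    (F : Finset V) (hF : F.card ≤ 3) (M : V → V → ℝ) (hM : ∀ w u, G.Adj w u → 0 < M w u)
    (z : V → ℝ) (h1 : ∀ w, w ∉ F → ∑ u ∈ G.neighborFinset w, M w u * z u = 0)
    (h2 : ∀ w ∈ F, 0 ≤ ∑ u ∈ G.neighborFinset w, M w u * z u)
    (c : V → Bool) (hc : ∀ l, (∀ w, G.Adj l w → z w = 0) →
        (∃ w, G.Adj l w ∧ c w = true) ∧ (∃ w, G.Adj l w ∧ c w = false))
    (h3 : ∀ w ∈ F, z w < 0 ∨ (z w = 0 ∧ c w = false)) :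
    ∃ S, Good G S := by
  classical
  set S : Finset V := Finset.univ.filter (fun u => 0 < z u ∨ (z u = 0 ∧ c u = true)) with hS
  have hFS : ∀ w ∈ F, w ∉ S := by
    intro w hw hwS
    rw [hS, Finset.mem_filter] at hwS
    rcases hwS.2 with h | h
    · rcases h3 w hw with h' | h'
      · exact absurd h (not_lt.2 h'.le)
      · rw [h'.1] at h; exact lt_irrefl _ h
    · rcases h3 w hw with h' | h'
      · rw [h.1] at h'; exact lt_irrefl _ h'
      · rw [h.2] at h'; exact absurd h'.2 (by decide)
  have key : ∀ w, w ∉ F → (∃ u, G.Adj w u ∧ u ∈ S) ∧ (∃ u, G.Adj w u ∧ u ∉ S) := by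
    intro w hw
    by_cases hall : ∀ u, G.Adj w u → z u = 0
    · obtain ⟨⟨w1, e1, e1'⟩, ⟨w2, e2, e2'⟩⟩ := hc w hall
      refine ⟨⟨w1, e1, ?_⟩, ⟨w2, e2, ?_⟩⟩
      · simp [hS, hall w1 e1, e1']
      · simp [hS, hall w2 e2, e2']
    · push Not at hall
      obtain ⟨u, hu, hzu⟩ := hall
      obtain ⟨⟨w1, e1, e1'⟩, ⟨w2, e2, e2'⟩⟩ := both_signs (G.neighborFinset w) (M w) z
        (fun u hu => hM w u ((G.mem_neighborFinset w u).1 hu)) (h1 w hw)
        ⟨u, (G.mem_neighborFinset w u).2 hu, hzu⟩
      refine ⟨⟨w1, (G.mem_neighborFinset w w1).1 e1, ?_⟩,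
        ⟨w2, (G.mem_neighborFinset w w2).1 e2, ?_⟩⟩
      · simp [hS, e1']
      · simp [hS, not_lt.2 e2'.le, e2'.ne]
  refine ⟨S, ?_, ?_, ?_⟩
  · intro w
    by_cases hw : w ∈ F
    · by_cases hall : ∀ u, G.Adj w u → z u = 0
      · obtain ⟨⟨w1, e1, e1'⟩, -⟩ := hc w hall
        refine ⟨w1, ?_, e1⟩
        simp [hS, hall w1 e1, e1']
      · push Not at hall
        obtain ⟨u, hu, hzu⟩ := hall
        by_contra hcon
        push Not at hcon
        have hneg : ∀ u ∈ G.neighborFinset w, z u ≤ 0 := by
          intro u hu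
          by_contra hpos
          push Not at hpos
          exact hcon u (by simp [hS, hpos]) ((G.mem_neighborFinset w u).1 hu)
        have h0 := h2 w hw
        have hlt : ∑ u ∈ G.neighborFinset w, M w u * z u < 0 := by
          apply Finset.sum_neg' 
          · intro i hi
            exact mul_nonpos_of_nonneg_of_nonpos (hM w i ((G.mem_neighborFinset w i).1 hi)).le
              (hneg i hi)
          · exact ⟨u, (G.mem_neighborFinset w u).2 hu, mul_neg_of_pos_of_neg (hM w u hu)
              (lt_of_le_of_ne (hneg u ((G.mem_neighborFinset w u).2 hu)) hzu)⟩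
        linarith
    · obtain ⟨⟨u, hu, huS⟩, -⟩ := key w hw
      exact ⟨u, huS, hu⟩
  · intro w hw
    have hwF : w ∉ F := fun h => hFS w h hw
    exact (key w hwF).2
  · refine le_trans (Finset.card_le_card ?_) hF
    intro w hw
    by_contra hwF
    obtain ⟨u, hu, huS⟩ := (key w hwF).2
    unfold Full at hw
    rw [Finset.mem_filter] at hw
    exact huS (hw.2 ((G.mem_neighborFinset w u).2 hu))

end Pool.Agent.MPf836ec
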