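import Pool.Agent.MPf836ec.NonBip

set_option autoImplicit false
set_option linter.unusedSectionVars false

namespace Pool.Agent.MPf836ec

variable {V : Type} [Fintype V] [DecidableEq V]

/-- In a connected bipartite graph closed sets are `X`, its complement, or everything. -/
theorem bip_extension {G : SimpleGraph V} [DecidableRel G.Adj] (hreg : G.IsRegularOfDegree 3)
    (hconn : G.Connected) (X : Finset V) (hX : ∀ u w, G.Adj u w → (u ∈ X ↔ w ∉ X))
    (z : V → ℝ) (hz1 : ∃ v ∈ X, z v ≠ 0) (hz2 : ∃ v, v ∉ X ∧ z v ≠ 0) :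
    ∃ c : V → Bool, ∀ l, (∀ w, G.Adj l w → z w = 0) →
        (∃ w, G.Adj l w ∧ c w = true) ∧ (∃ w, G.Adj l w ∧ c w = false) := by
  classical
  obtain ⟨c, hc⟩ := extension hreg _ (Finset.univ.filter (fun u => z u = 0)) rfl (by
    intro Q hQZ hQn
    by_contra hcon
    push Not at hcon
    have hQz : ∀ u ∈ Q, z u = 0 := fun u hu => (Finset.mem_filter.1 (hQZ hu)).2
    obtain ⟨v1, hv1, hzv1⟩ := hz1
    obtain ⟨v2, hv2, hzv2⟩ := hz2
    rcases closed_cases hconn Q hQn hcon with h | h
    · apply hzv1
      apply hQz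
      rw [h]; exact Finset.mem_univ _
    · -- compare the two bipartitions
      set R : Finset V := Finset.univ.filter (fun v => v ∈ X ↔ v ∈ Q) with hR
      have hRmem : ∀ v, v ∈ R ↔ (v ∈ X ↔ v ∈ Q) := by intro v; simp [hR]
      by_cases hRn : R.Nonempty
      · have hRu := conn_univ hconn R hRn (by
          intro u hu w huw
          rw [hRmem] at hu ⊢
          have h1 := hX u w huw
          have h2 := h u w huw
          tauto)
        apply hzv1
        apply hQz
        have : v1 ∈ R := by rw [hRu]; exact Finset.mem_univ _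
        exact ((hRmem v1).1 this).1 hv1
      · apply hzv2
        apply hQz
        have : v2 ∉ R := fun h => hRn ⟨v2, h⟩
        rw [hRmem] at this
        tauto)
  exact ⟨c, fun l hl => hc l (fun w hw => by
    simp only [Finset.mem_filter, Finset.mem_univ, true_and]; exact hl w hw)⟩

theorem bip {G : SimpleGraph V} [DecidableRel G.Adj] (hreg : G.IsRegularOfDegree 3)
    (hconn : G.Connected) (X : Finset V) (hX : ∀ u w, G.Adj u w → (u ∈ X ↔ w ∉ X)) :
    ∃ S, Good G S := by
  classical
  have hcard : X.card = Xᶜ.card := by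
    apply le_antisymm
    · apply dc_le hreg
      intro a ha l hal
      exact Finset.mem_compl.2 ((hX a l hal).1 ha)
    · apply dc_le hreg
      intro a ha l hal
      rw [Finset.mem_compl] at ha
      by_contra hl
      exact ha ((hX a l hal).2 hl)
  let e : X ≃ (Xᶜ : Finset V) := Finset.equivOfCardEq hcard
  have heX : ∀ x : X, (e x : V) ∉ X := fun x => Finset.mem_compl.1 (e x).2
  let N : Matrix X X ℝ := Matrix.of (fun r x => if G.Adj (e r : V) (x : V) then 1 else 0)
  have hN : ∀ r x, N r x = if G.Adj (e r : V) (x : V) then 1 else 0 := fun _ _ => rfl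
  -- glueing two vectors
  let glue : (X → ℝ) → (X → ℝ) → V → ℝ := fun y y' v =>
    if h : v ∈ X then y ⟨v, h⟩ else y' (e.symm ⟨v, Finset.mem_compl.2 h⟩)
  have glueX : ∀ (y y' : X → ℝ) (x : X), glue y y' x = y x := by
    intro y y' x
    simp [glue]
  have glueY : ∀ (y y' : X → ℝ) (r : X), glue y y' (e r) = y' r := by
    intro y y' r
    simp only [glue]
    rw [dif_neg (heX r)]
    congr 1
    exact e.symm_apply_apply r
  have hsurj : ∀ v, v ∉ X → ∃ r : X, (e r : V) = v := by
    intro v hv
    exact ⟨e.symm ⟨v, Finset.mem_compl.2 hv⟩, by simp⟩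
  have sumY : ∀ (y y' : X → ℝ) (r : X),
      ∑ u ∈ G.neighborFinset (e r), (1 : ℝ) * glue y y' u = (N.mulVec y) r := by
    intro y y' r
    have h1 : (N.mulVec y) r = ∑ x : X, (if G.Adj (e r : V) (x : V) then glue y y' x else 0) := by
      show ∑ x : X, N r x * y x = _
      apply Finset.sum_congr rfl
      intro x _
      rw [hN, glueX]
      split_ifs <;> simp
    rw [h1, Finset.sum_coe_sort X (fun x => if G.Adj (e r : V) x then glue y y' x else 0),
      ← Finset.sum_filter]
    have h2 : X.filter (fun x => G.Adj (e r : V) x) = G.neighborFinset (e r) := by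
      ext x
      simp only [Finset.mem_filter, SimpleGraph.mem_neighborFinset]
      refine ⟨fun h => h.2, fun h => ⟨?_, h⟩⟩
      by_contra hx
      exact heX r ((hX _ _ h).2 hx)
    rw [h2]
    simp
  have sumX : ∀ (y y' : X → ℝ) (x : X),
      ∑ u ∈ G.neighborFinset x, (1 : ℝ) * glue y y' u = (N.vecMul y') x := by
    intro y y' x
    have h1 : (N.vecMul y') x =
        ∑ r : X, (if G.Adj (x : V) (e r : V) then glue y y' (e r) else 0) := by
      show ∑ r : X, y' r * N r x = _
      apply Finset.sum_congr rfl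
      intro r _
      rw [hN, glueY]
      simp only [G.adj_comm (x : V) (e r : V)]
      split_ifs <;> simp
    have h3 : ∑ r : X, (if G.Adj (x : V) (e r : V) then glue y y' (e r) else 0) =
        ∑ u : (Xᶜ : Finset V), (if G.Adj (x : V) (u : V) then glue y y' u else 0) :=
      Equiv.sum_comp e (fun u => (if G.Adj (x : V) (u : V) then glue y y' u else 0))
    rw [h1, h3, Finset.sum_coe_sort Xᶜ (fun u => if G.Adj (x : V) u then glue y y' u else 0),
      ← Finset.sum_filter]
    have h2 : Xᶜ.filter (fun u => G.Adj (x : V) u) = G.neighborFinset x := by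
      ext u
      simp only [Finset.mem_filter, SimpleGraph.mem_neighborFinset, Finset.mem_compl]
      refine ⟨fun h => h.2, fun h => ⟨(hX _ _ h).1 x.2, h⟩⟩
    rw [h2]
    simp
  by_cases hdet : N.det = 0
  · obtain ⟨y, hy, hNy⟩ := Matrix.exists_mulVec_eq_zero_iff.2 hdet
    obtain ⟨y', hy', hNy'⟩ := Matrix.exists_vecMul_eq_zero_iff.2 hdet
    obtain ⟨x1, hx1⟩ : ∃ x, y x ≠ 0 := by
      by_contra hcon
      push Not at hcon
      exact hy (funext hcon)
    obtain ⟨x2, hx2⟩ : ∃ x, y' x ≠ 0 := by
      by_contra hcon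
      push Not at hcon
      exact hy' (funext hcon)
    obtain ⟨c, hc⟩ := bip_extension hreg hconn X hX (glue y y')
      ⟨x1, x1.2, by rw [glueX]; exact hx1⟩ ⟨e x2, heX x2, by rw [glueY]; exact hx2⟩
    refine good_of_vector ∅ (by simp) (fun _ _ => 1) (fun _ _ _ => one_pos) (glue y y') ?_ ?_
      c hc ?_
    · intro w _
      by_cases hw : w ∈ X
      · rw [sumX y y' ⟨w, hw⟩, hNy']; rfl
      · obtain ⟨r, rfl⟩ := hsurj w hw
        rw [sumY, hNy]; rfl
    · intro w hw; simp at hw
    · intro w hw; simp at hw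
  · -- the nonsingular case
    have hunit : IsUnit N.det := isUnit_iff_ne_zero.2 hdet
    have hNB : N * N⁻¹ = 1 := Matrix.mul_nonsing_inv N hunit
    have hBN : N⁻¹ * N = 1 := Matrix.nonsing_inv_mul N hunit
    obtain ⟨c₀⟩ : Nonempty X := by
      obtain ⟨v⟩ := hconn.nonempty
      by_cases hv : v ∈ X
      · exact ⟨⟨v, hv⟩⟩
      · have : 0 < (G.neighborFinset v).card := by
          rw [SimpleGraph.card_neighborFinset_eq_degree, hreg v]; norm_num
        obtain ⟨w, hw⟩ := Finset.card_pos.1 this
        rw [SimpleGraph.mem_neighborFinset] at hw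
        refine ⟨⟨w, ?_⟩⟩
        by_contra hwX
        exact hv ((hX v w hw).2 hwX)
    obtain ⟨x₀, hx₀⟩ : ∃ x₀, N⁻¹ x₀ c₀ < 0 := by
      by_contra hcon
      push Not at hcon
      have hzero : ∀ x, N⁻¹ x c₀ = 0 := by
        intro x
        -- a neighbour of x different from e c₀
        obtain ⟨r, hr, hrc⟩ : ∃ r : X, G.Adj (e r : V) (x : V) ∧ r ≠ c₀ := by
          have h3 : 1 < (G.neighborFinset (x : V)).card := by
            rw [SimpleGraph.card_neighborFinset_eq_degree, hreg x]; norm_num
          obtain ⟨w, hw, hwne⟩ := Finset.exists_mem_ne h3 (e c₀ : V)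
          rw [SimpleGraph.mem_neighborFinset] at hw
          obtain ⟨r, rfl⟩ := hsurj w ((hX _ _ hw).1 x.2)
          exact ⟨r, hw.symm, fun h => hwne (by rw [h])⟩
        have h1 : ∑ x', N r x' * N⁻¹ x' c₀ = 0 := by
          have := congrFun (congrFun hNB r) c₀
          rw [Matrix.mul_apply, Matrix.one_apply, if_neg hrc] at this
          exact this
        have h2 := (Finset.sum_eq_zero_iff_of_nonneg (fun x' _ => by
          apply mul_nonneg _ (hcon x')
          rw [hN]; split_ifs <;> norm_num)).1 h1 x (Finset.mem_univ _)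
        rw [hN, if_pos hr, one_mul] at h2
        exact h2
      have := congrFun (congrFun hNB c₀) c₀
      rw [Matrix.mul_apply, Matrix.one_apply, if_pos rfl] at this
      simp [hzero] at this
    set y : X → ℝ := fun x => N⁻¹ x c₀ with hy
    set y' : X → ℝ := fun r => N⁻¹ x₀ r with hy'
    have hNy : ∀ r, (N.mulVec y) r = if r = c₀ then 1 else 0 := by
      intro r
      have := congrFun (congrFun hNB r) c₀
      rw [Matrix.mul_apply, Matrix.one_apply] at this
      exact this
    have hNy' : ∀ x, (N.vecMul y') x = if x₀ = x then 1 else 0 := by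
      intro x
      have := congrFun (congrFun hBN x₀) x
      rw [Matrix.mul_apply, Matrix.one_apply] at this
      exact this
    have hneg1 : glue y y' x₀ < 0 := by rw [glueX]; exact hx₀
    have hneg2 : glue y y' (e c₀) < 0 := by rw [glueY]; exact hx₀
    obtain ⟨c, hc⟩ := bip_extension hreg hconn X hX (glue y y')
      ⟨x₀, x₀.2, hneg1.ne⟩ ⟨e c₀, heX c₀, hneg2.ne⟩
    refine good_of_vector {(x₀ : V), (e c₀ : V)} ?_ (fun _ _ => 1) (fun _ _ _ => one_pos)
      (glue y y') ?_ ?_ c hc ?_
    · exact Finset.card_le_two.trans (by norm_num)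
    · intro w hw
      simp only [Finset.mem_insert, Finset.mem_singleton, not_or] at hw
      by_cases hwX : w ∈ X
      · rw [sumX y y' ⟨w, hwX⟩, hNy', if_neg]
        intro h
        apply hw.1
        rw [h]
      · obtain ⟨r, rfl⟩ := hsurj w hwX
        rw [sumY, hNy, if_neg]
        rintro rfl
        exact hw.2 rfl
    · intro w hw
      by_cases hwX : w ∈ X
      · rw [sumX y y' ⟨w, hwX⟩, hNy']
        split_ifs <;> norm_num
      · obtain ⟨r, rfl⟩ := hsurj w hwX
        rw [sumY, hNy]
        split_ifs <;> norm_num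
    · intro w hw
      simp only [Finset.mem_insert, Finset.mem_singleton] at hw
      rcases hw with rfl | rfl
      · exact Or.inl hneg1
      · exact Or.inl hneg2

end Pool.Agent.MPf836ec
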