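import Pool.Agent.MPf836ec.Paths

set_option autoImplicit false
set_option linter.unusedSectionVars false

namespace Pool.Agent.MPf836ec

open Equiv Equiv.Perm

variable {V : Type} [Fintype V] [DecidableEq V]

theorem perm_apply_inv (ρ : Perm V) (x : V) : ρ (ρ⁻¹ x) = x := ρ.apply_symm_apply x

theorem sc_inv_right {ρ : Perm V} {x y : V} : SameCycle ρ x (ρ⁻¹ y) ↔ SameCycle ρ x y :=
  sameCycle_symm_apply_right

theorem sc_inv_left {ρ : Perm V} {x y : V} : SameCycle ρ (ρ⁻¹ x) y ↔ SameCycle ρ x y :=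
  sameCycle_symm_apply_left

theorem flower {G : SimpleGraph V} {ρ : Perm V}
    (H : ∀ σ τ : Perm V, AlmostAdj G σ → AlmostAdj G τ → Perm.sign σ = Perm.sign τ)
    (hρ : ∀ u, G.Adj u (ρ u)) {c u : V} {w m y : List V}
    (hw : P G ρ (ρ⁻¹ c) w c) (hm : P G ρ c m u) (hy : P G ρ u y (ρ u))
    (hm2 : ∀ x ∈ m, ρ (ρ x) = x)
    (nd : ((ρ⁻¹ c :: (w ++ [c])) ++ (m ++ ((u :: (y ++ [ρ u])) ++ m.reverse.map ρ))).Nodup) :
    False := by
  have hd := dual_path hm2 hm
  have hcyc : P G ρ (ρ⁻¹ c) (w ++ c :: (m ++ u :: (y ++ ρ u :: m.reverse.map ρ))) (ρ⁻¹ c) :=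
    P_append.2 ⟨hw, P_append.2 ⟨hm, P_append.2 ⟨hy, hd⟩⟩⟩
  have e : (ρ⁻¹ c :: (w ++ [c])) ++ (m ++ ((u :: (y ++ [ρ u])) ++ m.reverse.map ρ)) =
      ρ⁻¹ c :: (w ++ c :: (m ++ u :: (y ++ ρ u :: m.reverse.map ρ))) := by simp
  have h1 := parityO H hρ hcyc (by rw [← e]; exact nd)
  have h2 : Odd w.length := by
    refine parityE H hρ (a := ρ⁻¹ c) (by simpa using hw) ?_
    have : (ρ⁻¹ c :: (w ++ [ρ (ρ⁻¹ c)])) = ρ⁻¹ c :: (w ++ [c]) := by simp
    rw [this]
    exact (List.nodup_append.1 nd).1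
  have h3 : Odd y.length := by
    refine parityE H hρ hy ?_
    exact (List.nodup_append.1 (List.nodup_append.1 (List.nodup_append.1 nd).2.1).2.1).1
  simp only [List.length_append, List.length_cons, List.length_map, List.length_reverse] at h1
  obtain ⟨k1, hk1⟩ := h1
  obtain ⟨k2, hk2⟩ := h2
  obtain ⟨k3, hk3⟩ := h3
  omega

theorem first_dual {ρ : Perm V} (m : List V)
    (hne : ∀ x, ρ x ≠ x) (h2 : ∀ x ∈ m, ρ (ρ x) = x) (h : ∃ x ∈ m, ρ x ∈ m) :
    ∃ s x t, m = s ++ x :: t ∧ ρ x ∈ s ∧ ∀ y ∈ s, ρ y ∉ s := by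
  induction m using List.reverseRecOn with
  | nil => simp at h
  | append_singleton m a ih =>
    by_cases h' : ∃ x ∈ m, ρ x ∈ m
    · obtain ⟨s, x, t, h1, h3, h4⟩ := ih (fun x hx => h2 x (List.mem_append_left _ hx)) h'
      exact ⟨s, x, t ++ [a], by rw [h1]; simp, h3, h4⟩
    · refine ⟨m, a, [], rfl, ?_, ?_⟩
      · obtain ⟨x, hx, hx'⟩ := h
        rcases List.mem_append.1 hx with hx | hx
        · rcases List.mem_append.1 hx' with hx' | hx'
          · exact absurd ⟨x, hx, hx'⟩ h'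
          · have e : ρ x = a := by simpa using hx'
            have := h2 x (List.mem_append_left _ hx)
            rw [e] at this
            rw [this]; exact hx
        · have e : x = a := by simpa using hx
          subst e
          rcases List.mem_append.1 hx' with hx' | hx'
          · exact hx'
          · exact absurd (by simpa using hx') (hne x)
      · intro y hy hy'
        exact h' ⟨y, hy, hy'⟩

theorem exists_orbit_path {G : SimpleGraph V} {ρ : Perm V}
    (hρ : ∀ u, G.Adj u (ρ u)) {c : V} (hc : ∃ s : ℤ, Odd s ∧ (ρ ^ s) c = c) :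
    ∃ y, P G ρ c y (ρ c) ∧ (c :: (y ++ [ρ c])).Nodup ∧
      ∀ x ∈ c :: (y ++ [ρ c]), SameCycle ρ c x := by
  obtain ⟨n, hn⟩ : ∃ n : ℕ, (ρ ^ (2 * n + 1)) c = c := by
    obtain ⟨s, hs, hsc⟩ := hc
    have h1 : Odd s.natAbs := Int.natAbs_odd.2 hs
    obtain ⟨n, hn⟩ := h1
    refine ⟨n, ?_⟩
    rw [← hn]
    rcases Int.natAbs_eq s with h | h
    · rw [h, zpow_natCast] at hsc
      exact hsc
    · rw [h, zpow_neg, zpow_natCast] at hsc
      rw [Perm.inv_eq_iff_eq] at hsc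
      exact hsc.symm
  set r : V → V → Prop := fun u w => Arc G ρ u w ∧ SameCycle ρ c u ∧ SameCycle ρ c w with hr
  have h2 : ∀ i : ℕ, Relation.ReflTransGen r c (((ρ⁻¹ * ρ⁻¹) ^ i) c) ∧
      SameCycle ρ c (((ρ⁻¹ * ρ⁻¹) ^ i) c) := by
    intro i
    induction i with
    | zero => exact ⟨by simpa using Relation.ReflTransGen.refl, by simp [SameCycle.refl]⟩
    | succ i ih =>
      have hs : SameCycle ρ c (((ρ⁻¹ * ρ⁻¹) ^ (i + 1)) c) := by
        rw [pow_succ', Perm.mul_apply, Perm.mul_apply]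
        rw [sc_inv_right, sc_inv_right]
        exact ih.2
      refine ⟨ih.1.tail ⟨?_, ih.2, hs⟩, hs⟩
      unfold Arc
      rw [pow_succ', Perm.mul_apply, Perm.mul_apply]
      rw [perm_apply_inv]
      have := hρ (ρ⁻¹ (((ρ⁻¹ * ρ⁻¹) ^ i) c))
      rw [perm_apply_inv] at this
      exact this.symm
  have h3 : ((ρ⁻¹ * ρ⁻¹) ^ n) c = ρ c := by
    have e : (ρ⁻¹ * ρ⁻¹) ^ n = (ρ ^ (2 * n))⁻¹ := by
      rw [← sq, inv_pow, inv_pow, pow_mul]
    rw [e, Perm.inv_eq_iff_eq, ← Perm.mul_apply, ← pow_succ, hn]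
  have h4 := (h2 n).1
  rw [h3] at h4
  obtain ⟨y, hy1, hy2, hy3⟩ := exists_simple (fun x => SameCycle ρ c x) h4 (hρ c).ne
  exact ⟨y, hy1, hy2, hy3⟩

theorem not_fixed_of_sameCycle {ρ : Perm V} {c x : V} (hc : ρ (ρ c) ≠ c)
    (h : SameCycle ρ c x) : ρ (ρ x) ≠ x := by
  intro hx
  apply hc
  obtain ⟨i, hi⟩ := h.symm
  rw [← hi]
  have : (ρ * ρ * ρ ^ i) x = (ρ ^ i * (ρ * ρ)) x := by
    have e : ρ * ρ * ρ ^ i = ρ ^ i * (ρ * ρ) := by
      rw [← sq, ← zpow_natCast, ← zpow_add, ← zpow_add, add_comm]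
    rw [e]
  simp only [Perm.mul_apply] at this
  rw [this, hx]

/-- parity of the number of vertices in an odd orbit -/
theorem odd_orbit {ρ : Perm V} {c : V} (hne : ρ c ≠ c) (hc : ∃ s : ℤ, Odd s ∧ (ρ ^ s) c = c) :
    Odd (Finset.univ.filter (fun x => SameCycle ρ c x)).card := by
  have hcyc : IsCycle (ρ.cycleOf c) := isCycle_cycleOf ρ hne
  have hsupp : Finset.univ.filter (fun x => SameCycle ρ c x) = (ρ.cycleOf c).support := by
    ext y
    simp only [Finset.mem_filter, Finset.mem_univ, true_and]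
    rw [mem_support_cycleOf_iff]
    simp [hne]
  rw [hsupp, ← hcyc.orderOf]
  obtain ⟨s, hs, hsc⟩ := hc
  have h1 : (ρ.cycleOf c) ^ s = 1 := by
    have h1' : (ρ.cycleOf c) ^ s.natAbs = 1 := by
      rw [hcyc.pow_eq_one_iff]
      refine ⟨c, by simpa using hne, ?_⟩
      rw [cycleOf_pow_apply_self]
      rcases Int.natAbs_eq s with h | h
      · rw [h, zpow_natCast] at hsc
        exact hsc
      · rw [h, zpow_neg, zpow_natCast] at hsc
        rw [Perm.inv_eq_iff_eq] at hsc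
        exact hsc.symm
    rcases Int.natAbs_eq s with h | h
    · rw [h, zpow_natCast]; exact h1'
    · rw [h, zpow_neg, zpow_natCast, h1', inv_one]
  have h2 : (orderOf (ρ.cycleOf c) : ℤ) ∣ s := orderOf_dvd_iff_zpow_eq_one.2 h1
  obtain ⟨k, hk⟩ := h2
  rw [hk, Int.odd_mul] at hs
  exact_mod_cast hs.1

theorem even_invol {ρ : Perm V} (hne : ∀ x, ρ x ≠ x) :
    Even (Finset.univ.filter (fun x => ρ (ρ x) = x)).card := by
  have h : ∏ x ∈ Finset.univ.filter (fun x => ρ (ρ x) = x), (-1 : ℤ) = 1 := by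
    refine Finset.prod_involution (fun x _ => ρ x) ?_ ?_ ?_ ?_
    · intro a _; norm_num
    · intro a _ _; exact hne a
    · intro a ha
      simp only [Finset.mem_filter, Finset.mem_univ, true_and] at ha ⊢
      rw [ha]
    · intro a ha
      simp only [Finset.mem_filter, Finset.mem_univ, true_and] at ha
      exact ha
  rw [Finset.prod_const] at h
  by_contra hodd
  rw [Nat.not_even_iff_odd] at hodd
  rw [hodd.neg_one_pow] at h
  norm_num at h

theorem exists_two {ρ : Perm V} (hne : ∀ x, ρ x ≠ x) (heven : Even (Fintype.card V))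
    (hodd : ∀ x, ρ (ρ x) ≠ x → ∃ s : ℤ, Odd s ∧ (ρ ^ s) x = x) {c : V} (hc : ρ (ρ c) ≠ c) :
    ∃ c', ρ (ρ c') ≠ c' ∧ ¬ SameCycle ρ c c' := by
  by_contra hcon
  push Not at hcon
  have h1 : Finset.univ.filter (fun x => ¬ (ρ (ρ x) = x)) =
      Finset.univ.filter (fun x => SameCycle ρ c x) := by
    ext x
    simp only [Finset.mem_filter, Finset.mem_univ, true_and]
    exact ⟨fun h => hcon x h, fun h => not_fixed_of_sameCycle hc h⟩
  have h2 := Finset.card_filter_add_card_filter_not (s := (Finset.univ : Finset V))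
    (fun x => ρ (ρ x) = x)
  rw [h1, Finset.card_univ] at h2
  have h3 := odd_orbit (hne c) (hodd c hc)
  have h4 := even_invol hne
  obtain ⟨k1, hk1⟩ := h3
  obtain ⟨k2, hk2⟩ := h4
  obtain ⟨k3, hk3⟩ := heven
  omega

theorem stepA {G : SimpleGraph V} {ρ : Perm V}
    (H : ∀ σ τ : Perm V, AlmostAdj G σ → AlmostAdj G τ → Perm.sign σ = Perm.sign τ)
    (hρ : ∀ u, G.Adj u (ρ u)) (heven : Even (Fintype.card V))
    (hodd : ∀ x, ρ (ρ x) ≠ x → ∃ s : ℤ, Odd s ∧ (ρ ^ s) x = x)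
    (hconn : ∀ u w, Relation.ReflTransGen (Arc G ρ) u w) : ∀ x, ρ (ρ x) = x := by
  classical
  by_contra hcon
  push Not at hcon
  obtain ⟨c₀, hc₀⟩ := hcon
  have hne : ∀ x, ρ x ≠ x := fun x => (hρ x).ne'
  obtain ⟨c₁, hc₁, hc₀₁⟩ := exists_two hne heven hodd hc₀
  have hconn' : ∀ u w, u ≠ w → ∃ l, P G ρ u l w ∧ (u :: (l ++ [w])).Nodup := by
    intro u w huw
    have : Relation.ReflTransGen (fun u w => Arc G ρ u w ∧ (fun _ => True) u ∧ (fun _ => True) w)
        u w := by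
      refine Relation.ReflTransGen.mono ?_ _ _ (hconn u w)
      intro a b hab
      exact ⟨hab, trivial, trivial⟩
    obtain ⟨l, hl1, hl2, -⟩ := exists_simple (fun _ => True) this huw
    exact ⟨l, hl1, hl2⟩
  have hex : ∃ n, ∃ c c' m, ρ (ρ c) ≠ c ∧ ρ (ρ c') ≠ c' ∧ ¬ SameCycle ρ c c' ∧
      P G ρ c m c' ∧ (c :: (m ++ [c'])).Nodup ∧ m.length = n := by
    have hne01 : c₀ ≠ c₁ := by
      rintro rfl; exact hc₀₁ (SameCycle.refl _ _)
    obtain ⟨l, hl⟩ := hconn' c₀ c₁ hne01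
    exact ⟨l.length, c₀, c₁, l, hc₀, hc₁, hc₀₁, hl.1, hl.2, rfl⟩
  obtain ⟨c, c', m, hc, hc', hcc', hP, hnd, hlen⟩ := Nat.find_spec hex
  have hmin : ∀ d d' l, ρ (ρ d) ≠ d → ρ (ρ d') ≠ d' → ¬ SameCycle ρ d d' →
      P G ρ d l d' → (d :: (l ++ [d'])).Nodup → m.length ≤ l.length := by
    intro d d' l h1 h2 h3 h4 h5
    rw [hlen]
    exact Nat.find_min' hex ⟨d, d', l, h1, h2, h3, h4, h5, rfl⟩
  have hmV : ∀ x ∈ m, ρ (ρ x) = x := by
    intro x hx
    by_contra hxV
    obtain ⟨s, t, rfl⟩ := List.append_of_mem hx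
    obtain ⟨h1, h2⟩ := P_append.1 hP
    by_cases hcx : SameCycle ρ c x
    · have h3 : ¬ SameCycle ρ x c' := fun h => hcc' (hcx.trans h)
      have := hmin x c' t hxV hc' h3 h2 (by
        refine hnd.sublist ?_
        have e : c :: (s ++ x :: t ++ [c']) = (c :: s) ++ (x :: (t ++ [c'])) := by simp
        rw [e]
        exact List.sublist_append_right _ _)
      simp only [List.length_append, List.length_cons] at this
      omega
    · have := hmin c x s hc hxV hcx h1 (by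
        refine hnd.sublist ?_
        have e : c :: (s ++ x :: t ++ [c']) = (c :: (s ++ [x])) ++ (t ++ [c']) := by simp
        rw [e]
        exact List.sublist_append_left _ _)
      simp only [List.length_append, List.length_cons] at this
      omega
  have hmnd : m.Nodup := by
    rw [List.nodup_cons, List.nodup_append] at hnd
    exact hnd.2.1
  -- the path inside the cycle of `c`
  have hcinv : ρ (ρ (ρ⁻¹ c)) ≠ ρ⁻¹ c := by
    rw [perm_apply_inv]
    intro h
    apply hc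
    rw [h, perm_apply_inv]
  obtain ⟨w, hw1, hw2, hw3⟩ := exists_orbit_path hρ (hodd _ hcinv)
  rw [perm_apply_inv] at hw1 hw2 hw3
  have hWV : ∀ x ∈ ρ⁻¹ c :: (w ++ [c]), ρ (ρ x) ≠ x := fun x hx =>
    not_fixed_of_sameCycle hcinv (hw3 x hx)
  have hWc : ∀ x ∈ ρ⁻¹ c :: (w ++ [c]), SameCycle ρ c x := fun x hx =>
    sc_inv_left.1 (hw3 x hx)
  by_cases hdual : ∃ x ∈ m, ρ x ∈ m
  · obtain ⟨s, x, t, hs1, hs2, hs3⟩ := first_dual m hne hmV hdual
    obtain ⟨s₁, s₂, rfl⟩ := List.append_of_mem hs2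
    have hxx : ρ (ρ x) = x := hmV x (by rw [hs1]; simp)
    rw [hs1] at hP hmnd hmV
    have hP' : P G ρ c (s₁ ++ ρ x :: (s₂ ++ x :: t)) c' := by simpa using hP
    obtain ⟨h1, h2⟩ := P_append.1 hP'
    obtain ⟨h3, h4⟩ := P_append.1 h2
    have hs₁V : ∀ y ∈ s₁, ρ (ρ y) = y := fun y hy => hmV y (by simp [hy])
    have hs₁nd : s₁.Nodup := by
      refine hmnd.sublist ?_
      have e : s₁ ++ ρ x :: s₂ ++ x :: t = s₁ ++ (ρ x :: s₂ ++ x :: t) := by simp
      rw [e]
      exact List.sublist_append_left _ _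
    refine flower H hρ hw1 h1 (u := ρ x) (by rw [hxx]; exact h3) hs₁V ?_
    rw [hxx]
    have hsub : (s₁ ++ (ρ x :: (s₂ ++ [x]))).Nodup := by
      refine hmnd.sublist ?_
      have e : s₁ ++ ρ x :: s₂ ++ x :: t = (s₁ ++ (ρ x :: (s₂ ++ [x]))) ++ t := by simp
      rw [e]
      exact List.sublist_append_left _ _
    have hall : ∀ y ∈ s₁ ++ (ρ x :: (s₂ ++ [x])), ρ (ρ y) = y := by
      intro y hy
      apply hmV
      simp only [List.mem_cons, List.mem_append, List.not_mem_nil, or_false] at hy ⊢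
      tauto
    have hxs₁ : ρ x ∉ s₁ := by
      intro h
      rw [List.nodup_append] at hsub
      exact hsub.2.2 _ h _ List.mem_cons_self rfl
    have hmid : (s₁ ++ ((ρ x :: (s₂ ++ [x])) ++ s₁.reverse.map ρ)).Nodup := by
      have e : s₁ ++ ((ρ x :: (s₂ ++ [x])) ++ s₁.reverse.map ρ) =
        (s₁ ++ (ρ x :: (s₂ ++ [x]))) ++ s₁.reverse.map ρ := by simp
      rw [e, List.nodup_append]
      refine ⟨hsub, (List.nodup_reverse.2 hs₁nd).map ρ.injective, ?_⟩
      intro a ha b hb hab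
      subst hab
      rw [List.mem_map] at hb
      obtain ⟨b, hb, rfl⟩ := hb
      rw [List.mem_reverse] at hb
      have hb' : b ∈ s₁ ++ ρ x :: s₂ := List.mem_append_left _ hb
      have e2 : s₁ ++ (ρ x :: (s₂ ++ [x])) = (s₁ ++ ρ x :: s₂) ++ [x] := by simp
      rw [e2] at ha
      rcases List.mem_append.1 ha with h | h
      · exact hs3 b hb' h
      · have h' : ρ b = x := by simpa using h
        apply hxs₁
        rw [← h', hs₁V b hb]
        exact hb
    rw [List.nodup_append]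
    refine ⟨hw2, hmid, ?_⟩
    intro a ha b hb hab
    subst hab
    apply hWV a ha
    have e : s₁ ++ ((ρ x :: (s₂ ++ [x])) ++ s₁.reverse.map ρ) =
        (s₁ ++ (ρ x :: (s₂ ++ [x]))) ++ s₁.reverse.map ρ := by simp
    rw [e] at hb
    rcases List.mem_append.1 hb with h | h
    · exact hall a h
    · rw [List.mem_map] at h
      obtain ⟨b, hb2, rfl⟩ := h
      rw [List.mem_reverse] at hb2
      rw [hs₁V b hb2]
  · push Not at hdual
    obtain ⟨y, hy1, hy2, hy3⟩ := exists_orbit_path hρ (hodd _ hc')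
    have hUV : ∀ x ∈ c' :: (y ++ [ρ c']), ρ (ρ x) ≠ x := fun x hx =>
      not_fixed_of_sameCycle hc' (hy3 x hx)
    refine flower H hρ hw1 hP hy1 hmV ?_
    have hmap : ∀ x ∈ m.reverse.map ρ, ρ (ρ x) = x ∧ x ∉ m := by
      intro x hx
      rw [List.mem_map] at hx
      obtain ⟨b, hb, rfl⟩ := hx
      rw [List.mem_reverse] at hb
      exact ⟨by rw [hmV b hb], hdual b hb⟩
    rw [List.nodup_append]
    refine ⟨hw2, ?_, ?_⟩
    · rw [List.nodup_append]
      refine ⟨hmnd, ?_, ?_⟩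
      · rw [List.nodup_append]
        refine ⟨hy2, (List.nodup_reverse.2 hmnd).map ρ.injective, ?_⟩
        intro a ha b hb hab
        subst hab
        exact hUV a ha (hmap a hb).1
      · intro a ha b hb hab
        subst hab
        rcases List.mem_append.1 hb with h | h
        · exact hUV a h (hmV a ha)
        · exact (hmap a h).2 ha
    · intro a ha b hb hab
      subst hab
      rcases List.mem_append.1 hb with h | h
      · exact hWV a ha (hmV a h)
      · rcases List.mem_append.1 h with h | h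
        · exact hcc' ((hWc a ha).trans (hy3 a h).symm)
        · exact hWV a ha (hmap a h).1

end Pool.Agent.MPf836ec
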