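import Pool.Agent.MPf836ec.Paths

set_option autoImplicit false
set_option linter.unusedSectionVars false

namespace Pool.Agent.MPf836ec

open Equiv Equiv.Perm

variable {V : Type} [Fintype V] [DecidableEq V]

theorem last_occ (p : V → Prop) (l : List V) (h : ∃ x ∈ l, p x) :
    ∃ s z r, l = s ++ z :: r ∧ p z ∧ ∀ x ∈ r, ¬ p x := by
  induction l with
  | nil => simp at h
  | cons a l ih =>
    by_cases h' : ∃ x ∈ l, p x
    · obtain ⟨s, z, r, h1, h2, h3⟩ := ih h'
      exact ⟨a :: s, z, r, by rw [h1]; rfl, h2, h3⟩
    · refine ⟨[], a, l, rfl, ?_, ?_⟩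
      · obtain ⟨x, hx, hpx⟩ := h
        rcases List.mem_cons.1 hx with rfl | hx
        · exact hpx
        · exact absurd ⟨x, hx, hpx⟩ h'
      · intro x hx hpx
        exact h' ⟨x, hx, hpx⟩

theorem first_occ (p : V → Prop) (l : List V) (h : ∃ x ∈ l, p x) :
    ∃ s z r, l = s ++ z :: r ∧ p z ∧ ∀ x ∈ s, ¬ p x := by
  induction l with
  | nil => simp at h
  | cons a l ih =>
    by_cases h' : p a
    · exact ⟨[], a, l, rfl, h', by simp⟩
    · have h'' : ∃ x ∈ l, p x := by
        obtain ⟨x, hx, hpx⟩ := h
        rcases List.mem_cons.1 hx with rfl | hx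
        · exact absurd hpx h'
        · exact ⟨x, hx, hpx⟩
      obtain ⟨s, z, r, h1, h2, h3⟩ := ih h''
      refine ⟨a :: s, z, r, by rw [h1]; rfl, h2, ?_⟩
      intro x hx
      rcases List.mem_cons.1 hx with rfl | hx
      · exact h'
      · exact h3 x hx

theorem no_dual {G : SimpleGraph V} {ρ : Perm V}
    (H : ∀ σ τ : Perm V, AlmostAdj G σ → AlmostAdj G τ → Perm.sign σ = Perm.sign τ)
    (hρ : ∀ u, G.Adj u (ρ u)) (hinv : ∀ u, ρ (ρ u) = u)
    {a : V} {l : List V} (hP : P G ρ a l a) (hnd : (a :: l).Nodup)
    {x : V} (hx : x ∈ a :: l) (hx' : ρ x ∈ a :: l) : False := by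
  obtain ⟨l', hP', hperm⟩ := rotate_cycle hP hx
  have hnd' : (x :: l').Nodup := hperm.nodup_iff.2 hnd
  have hne : ρ x ≠ x := (hρ x).ne'
  have hx2 : ρ x ∈ l' := by
    have : ρ x ∈ x :: l' := hperm.mem_iff.2 hx'
    rcases List.mem_cons.1 this with h | h
    · exact absurd h hne
    · exact h
  obtain ⟨s, t, rfl⟩ := List.append_of_mem hx2
  obtain ⟨h1, h2⟩ := P_append.1 hP'
  have h3 : P G ρ (ρ x) t (ρ (ρ x)) := by rw [hinv]; exact h2
  have e1 : Odd s.length := by
    apply parityE H hρ h1
    refine hnd'.sublist ?_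
    apply List.Sublist.cons_cons
    apply List.Sublist.append_left
    simp
  have e2 : Odd t.length := by
    apply parityE H hρ h3
    rw [hinv]
    have : (ρ x :: (t ++ [x])).Perm ([x] ++ (ρ x :: t)) := by
      have := List.perm_append_comm (l₁ := ρ x :: t) (l₂ := [x])
      simpa using this
    rw [this.nodup_iff]
    refine hnd'.sublist ?_
    rw [List.singleton_append]
    apply List.Sublist.cons_cons
    simp
  have e3 : Even (s ++ ρ x :: t).length := parityO H hρ hP' hnd'
  simp only [List.length_append, List.length_cons] at e3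
  obtain ⟨k1, hk1⟩ := e1
  obtain ⟨k2, hk2⟩ := e2
  obtain ⟨k3, hk3⟩ := e3
  omega

theorem stepB {G : SimpleGraph V} {ρ : Perm V}
    (H : ∀ σ τ : Perm V, AlmostAdj G σ → AlmostAdj G τ → Perm.sign σ = Perm.sign τ)
    (hρ : ∀ u, G.Adj u (ρ u)) (hinv : ∀ u, ρ (ρ u) = u)
    (hconn : ∀ u w, Relation.ReflTransGen (Arc G ρ) u w) (v₀ : V) : False := by
  classical
  have hconn' : ∀ u w, u ≠ w → ∃ l, P G ρ u l w ∧ (u :: (l ++ [w])).Nodup := by
    intro u w huw
    have : Relation.ReflTransGen (fun u w => Arc G ρ u w ∧ (fun _ => True) u ∧ (fun _ => True) w)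
        u w := by
      refine Relation.ReflTransGen.mono ?_ _ _ (hconn u w)
      intro a b hab
      exact ⟨hab, trivial, trivial⟩
    obtain ⟨l, hl1, hl2, -⟩ := exists_simple (fun _ => True) this huw
    exact ⟨l, hl1, hl2⟩
  have hex : ∃ n, ∃ v l, P G ρ v l (ρ v) ∧ (v :: (l ++ [ρ v])).Nodup ∧ l.length = n := by
    obtain ⟨l, hl⟩ := hconn' v₀ (ρ v₀) (hρ v₀).ne
    exact ⟨l.length, v₀, l, hl.1, hl.2, rfl⟩
  obtain ⟨v, l, hP, hnd, hlen⟩ := Nat.find_spec hex
  have hmin : ∀ v' l', P G ρ v' l' (ρ v') → (v' :: (l' ++ [ρ v'])).Nodup →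
      l.length ≤ l'.length := by
    intro v' l' h1 h2
    rw [hlen]
    exact Nat.find_min' hex ⟨v', l', h1, h2, rfl⟩
  have hodd := parityE H hρ hP hnd
  cases l with
  | nil => simp at hodd
  | cons p₁ t =>
    obtain ⟨harc, hP1⟩ := P_cons.1 hP
    have hp1v : p₁ ≠ v := by
      intro h; subst h; simp at hnd
    obtain ⟨q, hq1, hq2⟩ := hconn' p₁ v hp1v
    -- the cycle
    have hZ : P G ρ v (p₁ :: q) v := P_cons.2 ⟨harc, hq1⟩
    have hZnd : (v :: (p₁ :: q)).Nodup := by
      have : (p₁ :: (q ++ [v])).Perm (v :: (p₁ :: q)) := by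
        have := List.perm_append_comm (l₁ := p₁ :: q) (l₂ := [v])
        simpa using this
      exact this.nodup_iff.1 hq2
    have hnodual : ∀ x, x ∈ v :: (p₁ :: q) → ρ x ∈ v :: (p₁ :: q) → False :=
      fun x hx hx' => no_dual H hρ hinv hZ hZnd hx hx'
    obtain ⟨s, z, r, hs, hz, hr⟩ := last_occ (fun x => x ∈ v :: (p₁ :: q)) (p₁ :: t)
      ⟨p₁, by simp, by simp⟩
    obtain ⟨r₁, w, r₂, hr₁, hw, hr₁'⟩ := first_occ (fun x => ρ x ∈ v :: (p₁ :: q)) (r ++ [ρ v])
      ⟨ρ v, by simp, by rw [hinv]; simp⟩
    have hwρ : w = ρ (ρ w) := (hinv w).symm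
    obtain ⟨z', hz'⟩ : ∃ z', z' = ρ w := ⟨_, rfl⟩
    rw [← hz'] at hw
    have hwz : w = ρ z' := by rw [hz']; exact hwρ
    -- elements of r and of r₁ are not in Z
    have hrr : ∀ x ∈ r ++ [ρ v], x ∉ v :: (p₁ :: q) := by
      intro x hx hx'
      rcases List.mem_append.1 hx with h | h
      · exact hr x h hx'
      · have : x = ρ v := by simpa using h
        subst this
        exact hnodual v (by simp) hx'
    rw [hs] at hP hnd
    obtain ⟨-, hP2⟩ := P_append.1 hP
    have hP3 : P G ρ z r₁ w := by
      unfold P at hP2 ⊢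
      rw [hr₁] at hP2
      have e : z :: (r₁ ++ w :: r₂) = (z :: (r₁ ++ [w])) ++ r₂ := by simp
      rw [e] at hP2
      exact (List.isChain_append.1 hP2).1
    have hnd2 : (z :: (r ++ [ρ v])).Nodup := by
      refine hnd.sublist ?_
      have e : v :: (s ++ z :: r ++ [ρ v]) = (v :: s) ++ (z :: (r ++ [ρ v])) := by simp
      rw [e]
      exact List.sublist_append_right _ _
    have hnd3 : (z :: (r₁ ++ [w])).Nodup := by
      rw [hr₁] at hnd2
      refine hnd2.sublist ?_
      apply List.Sublist.cons_cons
      apply List.Sublist.append_left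
      simp
    have hr₁len : r₁.length ≤ r.length := by
      have := congrArg List.length hr₁
      simp at this
      omega
    have hslen : (p₁ :: t).length = s.length + r.length + 1 := by
      rw [hs]; simp; omega
    by_cases hzz : z = z'
    · subst hzz
      rw [hwz] at hP3 hnd3
      have := hmin z r₁ hP3 hnd3
      omega
    · obtain ⟨l', hl'1, hl'2⟩ := rotate_cycle hZ hw
      have hl'nd : (z' :: l').Nodup := hl'2.nodup_iff.2 hZnd
      have hzl' : z ∈ l' := by
        have : z ∈ z' :: l' := hl'2.mem_iff.2 hz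
        rcases List.mem_cons.1 this with h | h
        · exact absurd h hzz
        · exact h
      obtain ⟨a, b, rfl⟩ := List.append_of_mem hzl'
      obtain ⟨ha, hb⟩ := P_append.1 hl'1
      have hZmem : ∀ x, x ∈ z' :: (a ++ z :: b) → x ∈ v :: (p₁ :: q) :=
        fun x hx => hl'2.mem_iff.1 hx
      have hr₁Z : ∀ x ∈ r₁, x ∉ z' :: (a ++ z :: b) := by
        intro x hx hx'
        refine hrr x ?_ (hZmem x hx')
        rw [hr₁]; exact List.mem_append_left _ hx
      have hr₁Z' : ∀ x ∈ r₁, ρ x ∉ z' :: (a ++ z :: b) := by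
        intro x hx hx'
        exact hr₁' x hx (hZmem _ hx')
      have hwZ : w ∉ z' :: (a ++ z :: b) := by
        intro h
        refine hnodual w (hZmem _ h) ?_
        rw [← hz']; exact hw
      have hnd' : ∀ x, x ∈ z' :: (a ++ z :: b) → ρ x ∉ z' :: (a ++ z :: b) :=
        fun x hx hx' => hnodual x (hZmem _ hx) (hZmem _ hx')
      have hr₁nd : r₁.Nodup := by
        rw [List.nodup_cons, List.nodup_append] at hnd3
        exact hnd3.2.1
      have hwr₁ : w ∉ r₁ := by
        intro h
        rw [List.nodup_cons, List.nodup_append] at hnd3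
        exact hnd3.2.2.2 w h w (by simp) rfl
      -- first path
      have q1 : Odd (a ++ z :: r₁).length := by
        apply parityE H hρ (a := z') (P_append.2 ⟨ha, by rw [← hwz]; exact hP3⟩)
        rw [← hwz]
        have e : z' :: (a ++ z :: r₁ ++ [w]) = (z' :: (a ++ [z])) ++ (r₁ ++ [w]) := by simp
        rw [e, List.nodup_append]
        refine ⟨?_, ?_, ?_⟩
        · refine hl'nd.sublist ?_
          apply List.Sublist.cons_cons
          apply List.Sublist.append_left
          simp
        · rw [List.nodup_append]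
          exact ⟨hr₁nd, by simp, by
            intro x hx y hy
            have : y = w := by simpa using hy
            subst this
            rintro rfl
            exact hwr₁ hx⟩
        · intro x hx y hy hxy
          subst hxy
          have hx' : x ∈ z' :: (a ++ z :: b) := by
            simp only [List.mem_cons, List.mem_append, List.not_mem_nil, or_false] at hx ⊢
            tauto
          rcases List.mem_append.1 hy with h | h
          · exact hr₁Z x h hx'
          · have : x = w := by simpa using h
            subst this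
            exact hwZ hx'
      -- second path
      have q2 : Odd (r₁ ++ ρ z' :: b.reverse.map ρ).length := by
        have hd := dual_path (G := G) (ρ := ρ) (fun x _ => hinv x) hb
        have hzinv : ρ⁻¹ z = ρ z := by
          rw [Perm.inv_eq_iff_eq]; exact (hinv z).symm
        rw [hzinv] at hd
        apply parityE H hρ (a := z) (P_append.2 ⟨by rw [← hwz]; exact hP3, hd⟩)
        have e : z :: (r₁ ++ ρ z' :: b.reverse.map ρ ++ [ρ z]) =
            (z :: r₁) ++ ((z' :: b.reverse ++ [z]).map ρ) := by simp
        rw [e, List.nodup_append]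
        refine ⟨?_, ?_, ?_⟩
        · refine hnd3.sublist ?_
          apply List.Sublist.cons_cons
          simp
        · apply List.Nodup.map ρ.injective
          have : (z' :: b.reverse ++ [z]).Perm (z' :: (z :: b)) := by
            rw [List.cons_append]
            apply List.Perm.cons
            refine (List.perm_append_comm).trans ?_
            rw [List.singleton_append]
            apply List.Perm.cons
            exact List.reverse_perm b
          rw [this.nodup_iff]
          refine hl'nd.sublist ?_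
          apply List.Sublist.cons_cons
          exact List.sublist_append_right _ _
        · intro x hx y hy hxy
          subst hxy
          rw [List.mem_map] at hy
          obtain ⟨y, hy, rfl⟩ := hy
          have hyZ : y ∈ z' :: (a ++ z :: b) := by
            simp only [List.mem_cons, List.mem_append, List.not_mem_nil, or_false,
              List.mem_reverse] at hy ⊢
            tauto
          rcases List.mem_cons.1 hx with h | h
          · exact hnd' y hyZ (by rw [h]; simp)
          · refine hr₁Z' _ h ?_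
            rw [hinv]; exact hyZ
      have q3 : Even (a ++ z :: b).length := parityO H hρ hl'1 hl'nd
      simp only [List.length_append, List.length_cons, List.length_map, List.length_reverse]
        at q1 q2 q3
      obtain ⟨k1, hk1⟩ := q1
      obtain ⟨k2, hk2⟩ := q2
      obtain ⟨k3, hk3⟩ := q3
      omega

end Pool.Agent.MPf836ec
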