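import Pool.Agent.MPf836ec.Basic
import Pool.Agent.MPf836ec.StepA
import Pool.Agent.MPf836ec.StepB

set_option autoImplicit false
set_option linter.unusedSectionVars false

namespace Pool.Agent.MPf836ec

open Equiv Equiv.Perm

variable {V : Type} [Fintype V] [DecidableEq V]

theorem conn_univ {G : SimpleGraph V} (hconn : G.Connected) (R : Finset V) (hne : R.Nonempty)
    (h : ∀ u ∈ R, ∀ w, G.Adj u w → w ∈ R) : R = Finset.univ := by
  obtain ⟨a, ha⟩ := hne
  ext b
  simp only [Finset.mem_univ, iff_true]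
  obtain ⟨p⟩ := hconn.preconnected a b
  induction p with
  | nil => exact ha
  | cons hadj _ ih => exact ih (h _ ha _ hadj)

theorem closed_cases {G : SimpleGraph V} (hconn : G.Connected) (Q : Finset V)
    (hne : Q.Nonempty) (hcl : ∀ u ∈ Q, ∀ l, G.Adj u l → ∀ w, G.Adj l w → w ∈ Q) :
    Q = Finset.univ ∨ (∀ u w, G.Adj u w → (u ∈ Q ↔ w ∉ Q)) := by
  classical
  set L : Finset V := Finset.univ.filter (fun l => ∃ u ∈ Q, G.Adj u l) with hL
  have hLmem : ∀ l, l ∈ L ↔ ∃ u ∈ Q, G.Adj u l := by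
    intro l; simp [hL]
  have hun : Q ∪ L = Finset.univ := by
    apply conn_univ hconn
    · obtain ⟨q, hq⟩ := hne
      exact ⟨q, Finset.mem_union_left _ hq⟩
    · intro u hu w huw
      rcases Finset.mem_union.1 hu with h | h
      · exact Finset.mem_union_right _ ((hLmem w).2 ⟨u, h, huw⟩)
      · obtain ⟨q, hq, hqu⟩ := (hLmem u).1 h
        exact Finset.mem_union_left _ (hcl q hq u hqu w huw)
  by_cases hin : (Q ∩ L).Nonempty
  · left
    have := conn_univ hconn (Q ∩ L) hin (by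
      intro u hu w huw
      rw [Finset.mem_inter] at hu ⊢
      obtain ⟨q, hq, hqu⟩ := (hLmem u).1 hu.2
      exact ⟨hcl q hq u hqu w huw, (hLmem w).2 ⟨u, hu.1, huw⟩⟩)
    rw [Finset.eq_univ_iff_forall] at this ⊢
    intro x
    exact (Finset.mem_inter.1 (this x)).1
  · right
    rw [Finset.not_nonempty_iff_eq_empty] at hin
    have hdisj : ∀ x, x ∈ Q → x ∈ L → False := by
      intro x h1 h2
      have : x ∈ Q ∩ L := Finset.mem_inter.2 ⟨h1, h2⟩
      rw [hin] at this
      exact absurd this (Finset.notMem_empty _)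
    intro u w huw
    constructor
    · intro hu hw
      exact hdisj w hw ((hLmem w).2 ⟨u, hu, huw⟩)
    · intro hw
      have hwL : w ∈ L := by
        have : w ∈ Q ∪ L := by rw [hun]; exact Finset.mem_univ _
        rcases Finset.mem_union.1 this with h | h
        · exact absurd h hw
        · exact h
      obtain ⟨q, hq, hqw⟩ := (hLmem w).1 hwL
      exact hcl q hq w hqw u huw.symm

theorem strong_conn {G : SimpleGraph V} [DecidableRel G.Adj] (hreg : G.IsRegularOfDegree 3)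
    (hQ : ∀ Q : Finset V, Q.Nonempty → (∀ u ∈ Q, ∀ l, G.Adj u l → ∀ w, G.Adj l w → w ∈ Q) →
      Q = Finset.univ) (ρ : Perm V) (u w : V) :
    Relation.ReflTransGen (Arc G ρ) u w := by
  classical
  set R : Finset V := Finset.univ.filter (fun x => Relation.ReflTransGen (Arc G ρ) u x) with hR
  have hRmem : ∀ x, x ∈ R ↔ Relation.ReflTransGen (Arc G ρ) u x := by
    intro x; simp [hR]
  have h1 : ∀ a ∈ R, ∀ l, G.Adj a l → l ∈ R.image ρ := by
    intro a ha l hal
    rw [Finset.mem_image]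
    refine ⟨ρ⁻¹ l, ?_, perm_apply_inv ρ l⟩
    rw [hRmem] at ha ⊢
    apply ha.tail
    unfold Arc
    rw [perm_apply_inv]
    exact hal
  have h2 : (R.image ρ).card = R.card := Finset.card_image_of_injective _ ρ.injective
  have h3 : ∀ l ∈ R.image ρ, ∀ w, G.Adj l w → w ∈ R := by
    by_contra hcon
    push Not at hcon
    have := dc_lt hreg R (R.image ρ) h1 hcon
    omega
  have h4 : R = Finset.univ := by
    apply hQ R ⟨u, (hRmem u).2 Relation.ReflTransGen.refl⟩
    intro a ha l hal w hlw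
    exact h3 l (h1 a ha l hal) w hlw
  rw [← hRmem, h4]
  exact Finset.mem_univ _

/-- splitting even cycles -/
theorem split_cycle {G : SimpleGraph V} {ρ : Perm V} (hρ : ∀ u, G.Adj u (ρ u)) {x : V}
    (hx : ρ (ρ x) ≠ x) (hno : ∀ s : ℤ, Odd s → (ρ ^ s) x ≠ x) :
    ∃ ρ' : Perm V, (∀ u, G.Adj u (ρ' u)) ∧
      (Finset.univ.filter (fun u => ρ (ρ u) = u)).card <
      (Finset.univ.filter (fun u => ρ' (ρ' u) = u)).card := by
  classical
  -- the even half of the cycle
  set E : V → Prop := fun u => ∃ i : ℤ, u = (ρ ^ (2 * i)) x with hE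
  have hE2 : ∀ u, E u → E (ρ⁻¹ (ρ⁻¹ u)) := by
    rintro u ⟨i, rfl⟩
    refine ⟨i - 1, ?_⟩
    have e : (2 * (i - 1) : ℤ) = (-1) + ((-1) + 2 * i) := by ring
    rw [e, zpow_add, zpow_add, zpow_neg_one]
    rfl
  have hdisj : ∀ u, E u → E (ρ⁻¹ u) → False := by
    rintro u ⟨i, hi⟩ ⟨j, hj⟩
    rw [Perm.inv_eq_iff_eq] at hj
    have h1 : (ρ ^ (1 + 2 * j)) x = (ρ ^ (2 * i)) x := by
      rw [zpow_add, zpow_one, Perm.mul_apply, ← hj, hi]
    have h2 : (ρ ^ (-(2 * i) + (1 + 2 * j))) x = x := by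
      rw [zpow_add, Perm.mul_apply, h1, ← Perm.mul_apply, ← zpow_add]
      simp
    refine hno _ ?_ h2
    exact ⟨j - i, by ring⟩
  set f : V → V := fun u => if E (ρ⁻¹ u) then ρ⁻¹ u else ρ u with hf
  have hinj : Function.Injective f := by
    intro u w huw
    simp only [hf] at huw
    by_cases hu : E (ρ⁻¹ u) <;> by_cases hw : E (ρ⁻¹ w)
    · rw [if_pos hu, if_pos hw] at huw
      exact ρ⁻¹.injective huw
    · rw [if_pos hu, if_neg hw] at huw
      exfalso
      apply hw
      rw [huw] at hu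
      have := hE2 _ hu
      have e : ρ⁻¹ (ρ w) = w := ρ.symm_apply_apply w
      rw [e] at this
      exact this
    · rw [if_neg hu, if_pos hw] at huw
      exfalso
      apply hu
      rw [← huw] at hw
      have := hE2 _ hw
      have e : ρ⁻¹ (ρ u) = u := ρ.symm_apply_apply u
      rw [e] at this
      exact this
    · rw [if_neg hu, if_neg hw] at huw
      exact ρ.injective huw
  have hbij : Function.Bijective f := Finite.injective_iff_bijective.1 hinj
  set ρ' : Perm V := Equiv.ofBijective f hbij with hρ'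
  have hρ'f : ∀ u, ρ' u = f u := fun u => rfl
  have hval : ∀ u, (E u ∨ ρ (ρ u) = u) → ρ' (ρ' u) = u := by
    intro u hu
    rw [hρ'f, hρ'f]
    simp only [hf]
    have e : ρ⁻¹ (ρ u) = u := ρ.symm_apply_apply u
    by_cases h1 : E (ρ⁻¹ u)
    · rw [if_pos h1]
      have h2 : ¬ E (ρ⁻¹ (ρ⁻¹ u)) := fun h => hdisj _ h1 h
      rw [if_neg h2, perm_apply_inv]
    · rw [if_neg h1, e]
      by_cases h3 : E u
      · rw [if_pos h3]
      · rw [if_neg h3]
        rcases hu with h | h
        · exact absurd h h3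
        · exact h
  refine ⟨ρ', ?_, ?_⟩
  · intro u
    rw [hρ'f]
    simp only [hf]
    by_cases h1 : E (ρ⁻¹ u)
    · rw [if_pos h1]
      have := hρ (ρ⁻¹ u)
      rw [perm_apply_inv] at this
      exact this.symm
    · rw [if_neg h1]
      exact hρ u
  · apply Finset.card_lt_card
    rw [Finset.ssubset_iff_of_subset]
    · refine ⟨x, ?_, ?_⟩
      · rw [Finset.mem_filter]
        exact ⟨Finset.mem_univ _, hval x (Or.inl ⟨0, by simp⟩)⟩
      · simp [hx]
    · intro u hu
      rw [Finset.mem_filter] at hu ⊢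
      exact ⟨Finset.mem_univ _, hval u (Or.inr hu.2)⟩

/-- The combinatorial contradiction. -/
theorem comb_contradiction {G : SimpleGraph V} (heven : Even (Fintype.card V))
    (H : ∀ σ τ : Perm V, AlmostAdj G σ → AlmostAdj G τ → Perm.sign σ = Perm.sign τ)
    (hex : ∃ ρ : Perm V, ∀ u, G.Adj u (ρ u))
    (hconn : ∀ ρ : Perm V, ∀ u w, Relation.ReflTransGen (Arc G ρ) u w)
    (v₀ : V) : False := by
  classical
  have hne : (Finset.univ.filter (fun ρ : Perm V => ∀ u, G.Adj u (ρ u))).Nonempty := by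
    obtain ⟨ρ, hρ⟩ := hex
    exact ⟨ρ, by simp [hρ]⟩
  obtain ⟨ρ, hρ1, hmax⟩ := Finset.exists_max_image _
    (fun ρ : Perm V => (Finset.univ.filter (fun u => ρ (ρ u) = u)).card) hne
  have hρ : ∀ u, G.Adj u (ρ u) := by simpa using hρ1
  have hodd : ∀ x, ρ (ρ x) ≠ x → ∃ s : ℤ, Odd s ∧ (ρ ^ s) x = x := by
    intro x hx
    by_contra hcon
    push Not at hcon
    obtain ⟨ρ', h1, h2⟩ := split_cycle hρ hx hcon
    have := hmax ρ' (by simpa using h1)
    omega
  have hinv := stepA H hρ heven hodd (hconn ρ)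
  exact stepB H hρ hinv (hconn ρ) v₀

theorem det_ne_zero {G : SimpleGraph V} [DecidableRel G.Adj] (hreg : G.IsRegularOfDegree 3)
    (hQ : ∀ Q : Finset V, Q.Nonempty → (∀ u ∈ Q, ∀ l, G.Adj u l → ∀ w, G.Adj l w → w ∈ Q) →
      Q = Finset.univ)
    (hno : ¬ ∃ S, Good G S) (M : Matrix V V ℝ) (v : V) (hM : ∀ w u, G.Adj w u → 0 < M w u)
    (hv : 0 ≤ M v v) (h0 : ∀ w u, ¬ G.Adj w u → ¬ (w = v ∧ u = v) → M w u = 0) :
    M.det ≠ 0 := by
  intro hdet
  apply hno
  obtain ⟨y, hy, hMy⟩ := Matrix.exists_mulVec_eq_zero_iff.2 hdet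
  obtain ⟨z, hz, hMz, hzv⟩ : ∃ z : V → ℝ, z ≠ 0 ∧ M.mulVec z = 0 ∧ z v ≤ 0 := by
    rcases le_total (y v) 0 with h | h
    · exact ⟨y, hy, hMy, h⟩
    · refine ⟨-y, neg_ne_zero.2 hy, ?_, by simpa using h⟩
      rw [Matrix.mulVec_neg, hMy, neg_zero]
  obtain ⟨c, hc⟩ := extension hreg _ (Finset.univ.filter (fun u => z u = 0)) rfl (by
    intro Q hQZ hQn
    by_contra hcon
    push Not at hcon
    have := hQ Q hQn hcon
    apply hz
    ext u
    have hu : u ∈ Q := by rw [this]; exact Finset.mem_univ _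
    exact (Finset.mem_filter.1 (hQZ hu)).2)
  have hrow : ∀ w, w ≠ v → ∑ u ∈ G.neighborFinset w, M w u * z u = 0 := by
    intro w hw
    have h1 : ∑ u, M w u * z u = 0 := congrFun hMz w
    rw [← h1]
    apply Finset.sum_subset (Finset.subset_univ _)
    intro u _ hu
    rw [h0 w u (fun h => hu ((G.mem_neighborFinset w u).2 h)) (fun h => hw h.1), zero_mul]
  have hrowv : M v v * z v + ∑ u ∈ G.neighborFinset v, M v u * z u = 0 := by
    have h1 : ∑ u, M v u * z u = 0 := congrFun hMz v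
    rw [← h1, ← Finset.sum_insert (f := fun u => M v u * z u) (by simp)]
    apply Finset.sum_subset (Finset.subset_univ _)
    intro u _ hu
    rw [Finset.mem_insert, not_or] at hu
    rw [h0 v u (fun h => hu.2 ((G.mem_neighborFinset v u).2 h)) (fun h => hu.1 h.2), zero_mul]
  refine good_of_vector {v} (by simp) M hM z ?_ ?_ (fun w => xor (c w) (c v)) ?_ ?_
  · intro w hw
    exact hrow w (by simpa using hw)
  · intro w hw
    rw [Finset.mem_singleton] at hw
    subst hw
    have : M w w * z w ≤ 0 := mul_nonpos_of_nonneg_of_nonpos hv hzv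
    linarith
  · intro l hl
    obtain ⟨⟨w1, e1, e1'⟩, ⟨w2, e2, e2'⟩⟩ := hc l (fun w hw => by
      simp only [Finset.mem_filter, Finset.mem_univ, true_and]; exact hl w hw)
    cases hcv : c v
    · exact ⟨⟨w1, e1, by simp [e1']⟩, ⟨w2, e2, by simp [e2']⟩⟩
    · exact ⟨⟨w2, e2, by simp [e2']⟩, ⟨w1, e1, by simp [e1']⟩⟩
  · intro w hw
    rw [Finset.mem_singleton] at hw
    subst hw
    rcases lt_or_eq_of_le hzv with h | h
    · exact Or.inl h
    · exact Or.inr ⟨h, by simp⟩

theorem sign_det {G : SimpleGraph V} [DecidableRel G.Adj] (hreg : G.IsRegularOfDegree 3)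
    (hQ : ∀ Q : Finset V, Q.Nonempty → (∀ u ∈ Q, ∀ l, G.Adj u l → ∀ w, G.Adj l w → w ∈ Q) →
      Q = Finset.univ)
    (hno : ¬ ∃ S, Good G S) (σ : Perm V) (hσ : AlmostAdj G σ) :
    0 < ((Perm.sign σ : ℤ) : ℝ) * (G.adjMatrix ℝ).det := by
  obtain ⟨v, hv⟩ := hσ
  set Pm : Matrix V V ℝ := (1 : Matrix V V ℝ).submatrix σ id with hPm
  have hPe : ∀ w u, Pm w u = (1 : Matrix V V ℝ) (σ w) u := fun _ _ => rfl
  have hPdet : Pm.det = ((Perm.sign σ : ℤ) : ℝ) := by
    rw [hPm, Matrix.det_permute]; simp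
  set f : ℝ → ℝ := fun t => ((1 - t) • Pm + t • G.adjMatrix ℝ).det with hf
  have hcont : Continuous f := by
    rw [hf]
    apply Continuous.matrix_det
    fun_prop
  have hf0 : f 0 = ((Perm.sign σ : ℤ) : ℝ) := by
    simp only [hf]; simp [hPdet]
  have hf1 : f 1 = (G.adjMatrix ℝ).det := by
    simp only [hf]; simp
  have hsne : ((Perm.sign σ : ℤ) : ℝ) ≠ 0 := by
    rcases Int.units_eq_one_or (Perm.sign σ) with h | h <;> rw [h] <;> norm_num
  have hne : ∀ t, 0 < t → t ≤ 1 → f t ≠ 0 := by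
    intro t ht0 ht1
    apply det_ne_zero hreg hQ hno _ v
    · intro w u hwu
      rw [Matrix.add_apply, Matrix.smul_apply, Matrix.smul_apply, hPe,
        smul_eq_mul, smul_eq_mul, SimpleGraph.adjMatrix_apply, if_pos hwu, mul_one]
      have h1 : 0 ≤ (1 : Matrix V V ℝ) (σ w) u := by
        rw [Matrix.one_apply]; split_ifs <;> norm_num
      have h2 : 0 ≤ (1 - t) * (1 : Matrix V V ℝ) (σ w) u := mul_nonneg (by linarith) h1
      linarith
    · rw [Matrix.add_apply, Matrix.smul_apply, Matrix.smul_apply, hPe,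
        smul_eq_mul, smul_eq_mul, SimpleGraph.adjMatrix_apply]
      have h1 : 0 ≤ (1 : Matrix V V ℝ) (σ v) v := by
        rw [Matrix.one_apply]; split_ifs <;> norm_num
      have h2 : 0 ≤ (1 - t) * (1 : Matrix V V ℝ) (σ v) v := mul_nonneg (by linarith) h1
      simpa using h2
    · intro w u hwu hn
      rw [Matrix.add_apply, Matrix.smul_apply, Matrix.smul_apply, hPe,
        smul_eq_mul, smul_eq_mul, SimpleGraph.adjMatrix_apply, if_neg hwu, mul_zero, add_zero]
      rw [Matrix.one_apply, if_neg, mul_zero]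
      intro h
      rcases hv w with h' | h'
      · rw [h] at h'; exact hwu h'
      · apply hn
        refine ⟨h'.1, ?_⟩
        rw [← h, h'.2, h'.1]
  have hdetne : (G.adjMatrix ℝ).det ≠ 0 := by
    rw [← hf1]; exact hne 1 one_pos le_rfl
  by_contra hcon
  push Not at hcon
  have hlt : ((Perm.sign σ : ℤ) : ℝ) * (G.adjMatrix ℝ).det < 0 :=
    lt_of_le_of_ne hcon (mul_ne_zero hsne hdetne)
  have hg := intermediate_value_Icc' (zero_le_one (α := ℝ))
    (f := fun t => f 0 * f t) (continuous_const.mul hcont).continuousOn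
  have hmem : (0 : ℝ) ∈ Set.Icc (f 0 * f 1) (f 0 * f 0) := by
    refine ⟨?_, mul_self_nonneg _⟩
    rw [hf0, hf1]; exact hlt.le
  obtain ⟨t, ht, hgt⟩ := hg hmem
  have hgt' : f 0 * f t = 0 := hgt
  rcases mul_eq_zero.1 hgt' with h | h
  · rw [hf0] at h; exact hsne h
  · rcases eq_or_lt_of_le ht.1 with h' | h'
    · rw [← h', hf0] at h; exact hsne h
    · exact hne t h' ht.2 h

/-- The non-bipartite case. -/
theorem nonbip {G : SimpleGraph V} [DecidableRel G.Adj] (hreg : G.IsRegularOfDegree 3)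
    (hconn : G.Connected)
    (hnb : ¬ ∃ X : Finset V, ∀ u w, G.Adj u w → (u ∈ X ↔ w ∉ X)) : ∃ S, Good G S := by
  by_contra hno
  have hQ : ∀ Q : Finset V, Q.Nonempty →
      (∀ u ∈ Q, ∀ l, G.Adj u l → ∀ w, G.Adj l w → w ∈ Q) → Q = Finset.univ := by
    intro Q hQn hQc
    rcases closed_cases hconn Q hQn hQc with h | h
    · exact h
    · exact absurd ⟨Q, h⟩ hnb
  obtain ⟨v₀⟩ := hconn.nonempty
  have H : ∀ σ τ : Perm V, AlmostAdj G σ → AlmostAdj G τ → Perm.sign σ = Perm.sign τ := by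
    intro σ τ hσ hτ
    have h1 := sign_det hreg hQ hno σ hσ
    have h2 := sign_det hreg hQ hno τ hτ
    rcases Int.units_eq_one_or (Perm.sign σ) with hs | hs <;>
      rcases Int.units_eq_one_or (Perm.sign τ) with ht | ht <;>
      rw [hs, ht] <;> rw [hs] at h1 <;> rw [ht] at h2 <;> exfalso <;> push_cast at h1 h2 <;>
      linarith
  have hdet : (G.adjMatrix ℝ).det ≠ 0 := by
    apply det_ne_zero hreg hQ hno _ v₀
    · intro w u hwu
      simp [SimpleGraph.adjMatrix_apply, hwu]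
    · simp
    · intro w u hwu _
      simp [SimpleGraph.adjMatrix_apply, hwu]
  have hex : ∃ ρ : Perm V, ∀ u, G.Adj u (ρ u) := by
    rw [Matrix.det_apply'] at hdet
    obtain ⟨σ, _, hσ⟩ := Finset.exists_ne_zero_of_sum_ne_zero hdet
    have hprod := right_ne_zero_of_mul hσ
    rw [Finset.prod_ne_zero_iff] at hprod
    refine ⟨σ, fun u => ?_⟩
    have := hprod u (Finset.mem_univ _)
    rw [SimpleGraph.adjMatrix_apply] at this
    by_contra hcon
    exact this (if_neg (fun h => hcon h.symm))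
  exact comb_contradiction (even_card hreg) H hex
    (fun ρ u w => strong_conn hreg hQ ρ u w) v₀

end Pool.Agent.MPf836ec
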