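import Mathlib

set_option autoImplicit false
set_option linter.unusedSectionVars false

namespace Pool.Agent.MPf836ec

open Equiv Equiv.Perm

variable {V : Type} [Fintype V] [DecidableEq V]

/-- sign of the cyclic permutation attached to a duplicate free list -/
theorem sign_formPerm (a : V) (l : List V) (h : (a :: l).Nodup) :
    Perm.sign (List.formPerm (a :: l)) = (-1) ^ l.length := by
  induction l generalizing a with
  | nil => simp
  | cons b l ih =>
    have hab : a ≠ b := by
      intro hab; subst hab; simp at h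
    rw [List.formPerm_cons_cons, Perm.sign_mul, Perm.sign_swap hab, ih b (List.nodup_cons.1 h).2]
    simp [pow_succ]

/-- A permutation moving every vertex to a neighbour, except possibly one fixed point. -/
def AlmostAdj (G : SimpleGraph V) (σ : Perm V) : Prop :=
  ∃ v, ∀ u, G.Adj u (σ u) ∨ (u = v ∧ σ u = u)

/-- The digraph attached to a permutation. -/
def Arc (G : SimpleGraph V) (ρ : Perm V) (u w : V) : Prop := G.Adj u (ρ w)

/-- A directed path from `a` to `b` with interior `l`. -/
def P (G : SimpleGraph V) (ρ : Perm V) (a : V) (l : List V) (b : V) : Prop :=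
  List.IsChain (Arc G ρ) (a :: (l ++ [b]))

theorem P_append {G : SimpleGraph V} {ρ : Perm V} {a b c : V} {l l' : List V} :
    P G ρ a (l ++ b :: l') c ↔ P G ρ a l b ∧ P G ρ b l' c := by
  unfold P
  have := List.isChain_cons_split (R := Arc G ρ) (a := a) (c := b) (l₁ := l) (l₂ := l' ++ [c])
  simpa using this

theorem P_nil {G : SimpleGraph V} {ρ : Perm V} {a b : V} :
    P G ρ a [] b ↔ Arc G ρ a b := by
  simp [P]

theorem P_cons {G : SimpleGraph V} {ρ : Perm V} {a b c : V} {l : List V} :
    P G ρ a (b :: l) c ↔ Arc G ρ a b ∧ P G ρ b l c := by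
  simp [P]

/-- The action of `formPerm` along a chain. -/
theorem formPerm_step (R : V → V → Prop) (a : V) (l : List V) (hnd : (a :: l).Nodup)
    (hch : List.IsChain R (a :: l)) (u : V) (hu : u ∈ a :: l)
    (hne : u ≠ (a :: l).getLast (by simp)) : R u (List.formPerm (a :: l) u) := by
  obtain ⟨i, hi, rfl⟩ := List.getElem_of_mem hu
  have hi' : i + 1 < (a :: l).length := by
    rcases Nat.lt_or_ge (i + 1) (a :: l).length with h | h
    · exact h
    · exfalso
      apply hne
      rw [List.getLast_eq_getElem]
      congr 1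
      omega
  rw [List.formPerm_apply_lt_getElem _ hnd i hi']
  exact List.isChain_iff_getElem.1 hch i hi'

/-- Main parity statement. -/
theorem parity {G : SimpleGraph V} {ρ : Perm V}
    (H : ∀ σ τ : Perm V, AlmostAdj G σ → AlmostAdj G τ → Perm.sign σ = Perm.sign τ)
    (hρ : ∀ u, G.Adj u (ρ u)) (a : V) (l : List V) (hnd : (a :: l).Nodup)
    (hch : List.IsChain (Arc G ρ) (a :: l))
    (hcl : Arc G ρ ((a :: l).getLast (by simp)) a ∨ ρ a = (a :: l).getLast (by simp)) :
    Even l.length := by
  have h1 : AlmostAdj G ρ := ⟨a, fun u => Or.inl (hρ u)⟩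
  have h2 : AlmostAdj G (ρ * List.formPerm (a :: l)) := by
    refine ⟨(a :: l).getLast (by simp), fun u => ?_⟩
    rw [Perm.mul_apply]
    by_cases hu : u ∈ a :: l
    · by_cases hl : u = (a :: l).getLast (by simp)
      · have hf : List.formPerm (a :: l) u = a := by
          rw [hl]; exact List.formPerm_apply_getLast a l
        rw [hf]
        rcases hcl with hcl | hcl
        · left; rw [hl]; exact hcl
        · right; exact ⟨hl, by rw [hcl, ← hl]⟩
      · left
        exact formPerm_step (Arc G ρ) a l hnd hch u hu hl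
    · rw [List.formPerm_apply_of_notMem hu]
      exact Or.inl (hρ u)
  have h3 := H _ _ h1 h2
  rw [Perm.sign_mul, sign_formPerm a l hnd] at h3
  have h4 : ((-1 : ℤˣ)) ^ l.length = 1 := left_eq_mul.1 h3
  by_contra hodd
  rw [Nat.not_even_iff_odd] at hodd
  rw [hodd.neg_one_pow] at h4
  exact absurd h4 (by decide)

/-- Simple directed paths from `a` to `ρ a` have an odd number of interior vertices. -/
theorem parityE {G : SimpleGraph V} {ρ : Perm V}
    (H : ∀ σ τ : Perm V, AlmostAdj G σ → AlmostAdj G τ → Perm.sign σ = Perm.sign τ)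
    (hρ : ∀ u, G.Adj u (ρ u)) {a : V} {l : List V} (hP : P G ρ a l (ρ a))
    (hnd : (a :: (l ++ [ρ a])).Nodup) : Odd l.length := by
  have := parity H hρ a (l ++ [ρ a]) hnd hP (Or.inr (by simp))
  simp only [List.length_append, List.length_cons, List.length_nil] at this
  rcases this with ⟨k, hk⟩
  exact ⟨k - 1, by omega⟩

/-- Directed cycles are odd. -/
theorem parityO {G : SimpleGraph V} {ρ : Perm V}
    (H : ∀ σ τ : Perm V, AlmostAdj G σ → AlmostAdj G τ → Perm.sign σ = Perm.sign τ)
    (hρ : ∀ u, G.Adj u (ρ u)) {a : V} {l : List V} (hP : P G ρ a l a)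
    (hnd : (a :: l).Nodup) : Even l.length := by
  unfold P at hP
  have hP' : List.IsChain (Arc G ρ) ((a :: l) ++ [a]) := by simpa using hP
  rw [List.isChain_append] at hP'
  refine parity H hρ a l hnd hP'.1 (Or.inl ?_)
  apply hP'.2.2
  · simp [List.getLast?_eq_some_getLast]
  · simp

/-- Simple directed paths, keeping a property of the vertices. -/
theorem exists_simple {G : SimpleGraph V} {ρ : Perm V} (K : V → Prop) {a b : V}
    (h : Relation.ReflTransGen (fun u w => Arc G ρ u w ∧ K u ∧ K w) a b) (hab : a ≠ b) :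
    ∃ l, P G ρ a l b ∧ (a :: (l ++ [b])).Nodup ∧ ∀ x ∈ a :: (l ++ [b]), K x := by
  induction h using Relation.ReflTransGen.head_induction_on with
  | refl => exact absurd rfl hab
  | head h1 h2 ih =>
    rename_i x y
    obtain ⟨hxy, hKx, hKy⟩ := h1
    by_cases hyb : y = b
    · subst hyb
      refine ⟨[], P_nil.2 hxy, by simpa using hab, ?_⟩
      simp [hKx, hKy]
    · obtain ⟨l, hl1, hl2, hl3⟩ := ih hyb
      by_cases hx : x ∈ y :: (l ++ [b])
      · have hx' : x ∈ y :: l := by
          simp only [List.mem_cons, List.mem_append, List.not_mem_nil, or_false] at hx ⊢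
          tauto
        obtain ⟨s, t, hst⟩ := List.append_of_mem hx'
        have e : y :: (l ++ [b]) = s ++ x :: (t ++ [b]) := by
          rw [← List.cons_append, hst]; simp
        refine ⟨t, ?_, ?_, ?_⟩
        · unfold P at hl1 ⊢
          rw [e] at hl1
          exact (List.isChain_append.1 hl1).2.1
        · rw [e] at hl2
          exact (List.nodup_append.1 hl2).2.1
        · intro z hz
          apply hl3
          rw [e]
          exact List.mem_append_right _ hz
      · refine ⟨y :: l, P_cons.2 ⟨hxy, hl1⟩, ?_, ?_⟩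
        · rw [List.cons_append, List.nodup_cons]
          exact ⟨hx, hl2⟩
        · intro z hz
          rw [List.cons_append, List.mem_cons] at hz
          rcases hz with rfl | hz
          · exact hKx
          · exact hl3 z hz

/-- Rotation of a directed cycle. -/
theorem rotate_cycle {G : SimpleGraph V} {ρ : Perm V} {a x : V} {l : List V}
    (hP : P G ρ a l a) (hx : x ∈ a :: l) :
    ∃ l', P G ρ x l' x ∧ (x :: l').Perm (a :: l) := by
  rcases List.mem_cons.1 hx with rfl | hx
  · exact ⟨l, hP, List.Perm.refl _⟩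
  · obtain ⟨s, t, rfl⟩ := List.append_of_mem hx
    obtain ⟨h1, h2⟩ := P_append.1 hP
    refine ⟨t ++ a :: s, P_append.2 ⟨h2, h1⟩, ?_⟩
    have e1 : (x :: (t ++ a :: s)) = (x :: t) ++ (a :: s) := by simp
    have e2 : (a :: (s ++ x :: t)) = (a :: s) ++ (x :: t) := by simp
    rw [e1, e2]
    exact List.perm_append_comm

/-- Reversal of paths whose interior is fixed by `ρ ^ 2`. -/
theorem dual_path {G : SimpleGraph V} {ρ : Perm V} {a b : V} {l : List V}
    (hl : ∀ x ∈ l, ρ (ρ x) = x) (hP : P G ρ a l b) :
    P G ρ (ρ b) (l.reverse.map ρ) (ρ⁻¹ a) := by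
  induction l generalizing a with
  | nil =>
    rw [P_nil] at hP
    simp only [List.reverse_nil, List.map_nil]
    rw [P_nil]
    unfold Arc at hP ⊢
    simpa using hP.symm
  | cons x l ih =>
    rw [P_cons] at hP
    have h1 := ih (fun y hy => hl y (List.mem_cons_of_mem _ hy)) hP.2
    have hx : ρ⁻¹ x = ρ x := by
      rw [Perm.inv_eq_iff_eq]; exact (hl x List.mem_cons_self).symm
    rw [hx] at h1
    simp only [List.reverse_cons, List.map_append, List.map_cons, List.map_nil]
    rw [P_append]
    refine ⟨h1, ?_⟩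
    rw [P_nil]
    have h2 := hP.1
    unfold Arc at h2 ⊢
    simpa using h2.symm

end Pool.Agent.MPf836ec
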